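import Pool.Agent.V7H58.EC.Rigid
import Pool.Agent.R565.PU.Cp

/-!
# Functions on products of a rigid set and of blocks
-/

set_option autoImplicit false

namespace Pool.Agent.V7H58.EC

open MvPolynomial

section

variable {K : Type} [Field K] [CharZero K]

/-- The values of `P / q` on the product of the sets `S j` and of `T`; the denominator depends on the
coordinates of the `S j` only. -/
def mixed {r : ℕ} {d : Fin r → ℕ} (S : ∀ j, Set (Fin (d j + 1) → K)) {σ : Type}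
    (T : Set (σ → K)) (P : MvPolynomial (((j : Fin r) × Fin (d j + 1)) ⊕ σ) K)
    (q : MvPolynomial ((j : Fin r) × Fin (d j + 1)) K) : Set K :=
  {a | ∃ (y : (j : Fin r) × Fin (d j + 1) → K) (x : σ → K), (∀ j, (fun k => y ⟨j, k⟩) ∈ S j) ∧
    x ∈ T ∧ eval y q ≠ 0 ∧ a = eval (Sum.elim y x) P / eval y q}

/-- fixing the second group of variables -/
theorem spec_right {α σ : Type} (P : MvPolynomial (α ⊕ σ) K) (x : σ → K) :
    ∃ p : MvPolynomial α K, ∀ y, eval y p = eval (Sum.elim y x) P := by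
  refine ⟨bind₁ (Sum.elim X fun k => C (x k)) P, fun y => ?_⟩
  rw [eval, eval₂Hom_bind₁]
  refine congrArg (fun h => eval h P) (funext fun s => ?_)
  rcases s with s | s
  · simp
  · simp

/-- fixing the first group of variables -/
theorem spec_left {α σ : Type} (P : MvPolynomial (α ⊕ σ) K) (y : α → K) :
    ∃ p : MvPolynomial σ K, ∀ x, eval x p = eval (Sum.elim y x) P := by
  refine ⟨bind₁ (Sum.elim (fun k => C (y k)) X) P, fun x => ?_⟩
  rw [eval, eval₂Hom_bind₁]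
  refine congrArg (fun h => eval h P) (funext fun s => ?_)
  rcases s with s | s
  · simp
  · simp

theorem mixed_fin {O : Set K} (hO : Pool.Agent.TH783.CE.Flat O) (φ : K →+* ℂ) {r : ℕ}
    {d : Fin r → ℕ} {S : ∀ j, Set (Fin (d j + 1) → K)} (hS : ∀ j, Pool.Agent.R565.PU.Blk2 (S j))
    {σ : Type} [Finite σ] {T : Set (σ → K)} (hT : Rigid O T)
    (P : MvPolynomial (((j : Fin r) × Fin (d j + 1)) ⊕ σ) K)
    (q : MvPolynomial ((j : Fin r) × Fin (d j + 1)) K) (h : mixed S T P q ⊆ O) :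
    (mixed S T P q).Finite := by
  obtain ⟨ρ, hρ1, hρ2, hρ3⟩ := retract T
  have hfin : ∀ x : σ → K, x ∈ T → {a | ∃ y : (j : Fin r) × Fin (d j + 1) → K,
      (∀ j, (fun k => y ⟨j, k⟩) ∈ S j) ∧ eval y q ≠ 0 ∧
      a = eval (Sum.elim y x) P / eval y q}.Finite := by
    intro x hx
    obtain ⟨p, hp⟩ := spec_right P x
    have h1 := Pool.Agent.R565.PU.fin_vals2 hO φ hS p q (fun t ht => by
      obtain ⟨y, hy, hq, rfl⟩ := ht
      exact h ⟨y, x, hy, hx, hq, by rw [hp]⟩)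
    refine h1.subset ?_
    rintro a ⟨y, hy, hq, rfl⟩
    exact ⟨y, hy, hq, by rw [hp]⟩
  refine ((hρ2.biUnion (t := fun x => {a | ∃ y : (j : Fin r) × Fin (d j + 1) → K,
      (∀ j, (fun k => y ⟨j, k⟩) ∈ S j) ∧ eval y q ≠ 0 ∧
      a = eval (Sum.elim y x) P / eval y q})) ?_).subset ?_
  · rintro x ⟨z, hz, rfl⟩
    exact hfin _ (hρ1 z hz)
  · rintro a ⟨y, x, hy, hx, hq, rfl⟩
    rw [Set.mem_iUnion₂]
    refine ⟨ρ x, ⟨x, hx, rfl⟩, y, hy, hq, ?_⟩
    obtain ⟨p, hp⟩ := spec_left P y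
    have h1 : ∀ z, eval z (C (eval y q)⁻¹ * p) = eval (Sum.elim y z) P / eval y q := by
      intro z
      rw [map_mul, eval_C, hp]
      field_simp
    have h2 : ((fun z => eval z (C (eval y q)⁻¹ * p)) '' T).Finite :=
      hT _ fun z hz => by
        rw [h1]
        exact h ⟨y, z, hy, hz, hq, rfl⟩
    have h3 := hρ3 _ h2 x hx
    rw [h1, h1] at h3
    exact h3.symm

/-- clearing denominators -/
theorem clear {α τ : Type} (P : τ → MvPolynomial α K) (q : MvPolynomial α K)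
    (p : MvPolynomial τ K) : ∃ (R : MvPolynomial α K) (N : ℕ), ∀ x : α → K, eval x q ≠ 0 →
      eval (fun k => eval x (P k) / eval x q) p = eval x R / eval x q ^ N := by
  induction p using MvPolynomial.induction_on with
  | C c => exact ⟨C c, 0, fun x _ => by simp⟩
  | add p₁ p₂ h1 h2 =>
    obtain ⟨R₁, N₁, h1⟩ := h1
    obtain ⟨R₂, N₂, h2⟩ := h2
    refine ⟨R₁ * q ^ N₂ + R₂ * q ^ N₁, N₁ + N₂, fun x hx => ?_⟩
    rw [map_add, h1 x hx, h2 x hx, map_add, map_mul, map_mul, map_pow, map_pow, pow_add]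
    field_simp
  | mul_X p k h =>
    obtain ⟨R, N, h⟩ := h
    refine ⟨R * P k, N + 1, fun x hx => ?_⟩
    rw [map_mul, h x hx, eval_X, map_mul, pow_succ]
    field_simp

/-- the points `P / q` on the product of the sets `S j` and of `T`; the denominator depends on the
coordinates of the `S j` only -/
def mixedPts {r : ℕ} {d : Fin r → ℕ} (S : ∀ j, Set (Fin (d j + 1) → K)) {σ τ : Type}
    (T : Set (σ → K)) (P : τ → MvPolynomial (((j : Fin r) × Fin (d j + 1)) ⊕ σ) K)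
    (q : MvPolynomial ((j : Fin r) × Fin (d j + 1)) K) : Set (τ → K) :=
  {z | ∃ (y : (j : Fin r) × Fin (d j + 1) → K) (x : σ → K), (∀ j, (fun k => y ⟨j, k⟩) ∈ S j) ∧
    x ∈ T ∧ eval y q ≠ 0 ∧ z = fun k => eval (Sum.elim y x) (P k) / eval y q}

theorem mixed_rigid {O : Set K} (hO : Pool.Agent.TH783.CE.Flat O) (φ : K →+* ℂ) {r : ℕ}
    {d : Fin r → ℕ} {S : ∀ j, Set (Fin (d j + 1) → K)} (hS : ∀ j, Pool.Agent.R565.PU.Blk2 (S j))
    {σ τ : Type} [Finite σ] {T : Set (σ → K)} (hT : Rigid O T)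
    (P : τ → MvPolynomial (((j : Fin r) × Fin (d j + 1)) ⊕ σ) K)
    (q : MvPolynomial ((j : Fin r) × Fin (d j + 1)) K) : Rigid O (mixedPts S T P q) := by
  intro p hp
  have hq : ∀ (y : (j : Fin r) × Fin (d j + 1) → K) (x : σ → K),
      eval (Sum.elim y x) (rename Sum.inl q) = eval y q := by
    intro y x
    rw [eval_rename]
    rfl
  obtain ⟨R, N, hR⟩ := clear P (rename Sum.inl q) p
  have h1 : ∀ (y : (j : Fin r) × Fin (d j + 1) → K) (x : σ → K), eval y q ≠ 0 →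
      eval (fun k => eval (Sum.elim y x) (P k) / eval y q) p =
        eval (Sum.elim y x) (R * rename Sum.inl q) / eval y (q ^ (N + 1)) := by
    intro y x hy
    have h2 := hR (Sum.elim y x) (by rw [hq]; exact hy)
    simp only [hq] at h2
    rw [h2, map_mul, hq, map_pow, pow_succ]
    field_simp
  have h3 : mixed S T (R * rename Sum.inl q) (q ^ (N + 1)) ⊆ O := by
    rintro _ ⟨y, x, hy, hx, hq0, rfl⟩
    have hq1 : eval y q ≠ 0 := by
      intro h
      apply hq0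
      rw [map_pow, h, zero_pow (Nat.succ_ne_zero N)]
    rw [← h1 y x hq1]
    exact hp _ ⟨y, x, hy, hx, hq1, rfl⟩
  refine (mixed_fin hO φ hS hT _ _ h3).subset ?_
  rintro _ ⟨_, ⟨y, x, hy, hx, hq0, rfl⟩, rfl⟩
  refine ⟨y, x, hy, hx, ?_, h1 y x hq0⟩
  rw [map_pow]
  exact pow_ne_zero _ hq0

theorem block_rigid {O : Set K} (hO : Pool.Agent.TH783.CE.Flat O) (φ : K →+* ℂ) {n : ℕ}
    {S : Set (Fin (n + 1) → K)} (hS : Pool.Agent.R565.PU.Blk2 S) : Rigid O S := by
  intro p hp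
  have he : ∀ y : ((j : Fin 1) × Fin ((fun _ : Fin 1 => n) j + 1)) → K,
      eval y (rename (fun k => (⟨0, k⟩ : (j : Fin 1) × Fin ((fun _ : Fin 1 => n) j + 1))) p) =
        eval (fun k => y ⟨0, k⟩) p := by
    intro y
    rw [eval_rename]
    rfl
  have h1 := Pool.Agent.R565.PU.fin_vals2 (d := fun _ : Fin 1 => n) (S := fun _ => S) hO φ
    (fun _ => hS)
    (rename (fun k => (⟨0, k⟩ : (j : Fin 1) × Fin ((fun _ : Fin 1 => n) j + 1))) p) 1 (by
      rintro _ ⟨y, hy, -, rfl⟩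
      rw [he, map_one, div_one]
      exact hp _ (hy 0))
  refine h1.subset ?_
  rintro _ ⟨z, hz, rfl⟩
  refine ⟨fun s => z s.2, fun _ => hz, by simp, ?_⟩
  rw [he, map_one, div_one]

end

end Pool.Agent.V7H58.EC
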