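import Pool.Agent.V7H58.EC.Punct

/-!
# Points near a given point of a cubic curve
-/

set_option autoImplicit false

namespace Pool.Agent.V7H58.EC

open Polynomial

section

variable {K : Type} [Field K] {v : AbsoluteValue K ℝ}

theorem coeffs_ne {p₃ p₂ p₁ p₀ : K} (h : p₃ ≠ 0 ∨ p₂ ≠ 0) :
    (C p₃ * X ^ 3 + C p₂ * X ^ 2 + C p₁ * X + C p₀ : K[X]) ≠ 0 := by
  intro h0
  rcases h with h | h
  · have := congrArg (fun p => p.coeff 3) h0
    simp at this
    exact h this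
  · have := congrArg (fun p => p.coeff 2) h0
    simp at this
    exact h this

theorem avoid {a α s t : K} (b d g : K) (h : t * a ≠ 0 ∨ (t = 0 ∧ α ≠ 0)) :
    ((C α * X + C s) ^ 2 - C t * (C a * X ^ 3 + C b * X ^ 2 + C d * X + C g) : K[X]) ≠ 0 := by
  have e : ((C α * X + C s) ^ 2 - C t * (C a * X ^ 3 + C b * X ^ 2 + C d * X + C g) : K[X]) =
      C (-(t * a)) * X ^ 3 + C (α ^ 2 - t * b) * X ^ 2 + C (2 * α * s - t * d) * X +
        C (s ^ 2 - t * g) := by
    simp only [C_neg, C_mul, C_sub, C_pow, map_ofNat]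
    ring
  rw [e]
  refine coeffs_ne ?_
  rcases h with h | ⟨h1, h2⟩
  · exact Or.inl (neg_ne_zero.2 h)
  · right
    rw [h1, zero_mul, sub_zero]
    exact pow_ne_zero 2 h2

theorem est_one {A B D G r : ℝ} (hB : 0 ≤ B) (hD : 0 ≤ D) (hG : 0 ≤ G) (hr : 1 < r) :
    A * r ^ 3 + B * r ^ 2 + D * r + G ≤ (A + B + D + G) * r ^ 3 := by
  have l1 : r ^ 2 ≤ r ^ 3 := pow_le_pow_right₀ hr.le (by norm_num)
  have l2 : r ≤ r ^ 3 := by
    calc r = r ^ 1 := (pow_one r).symm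
      _ ≤ r ^ 3 := pow_le_pow_right₀ hr.le (by norm_num)
  have l3 : 1 ≤ r ^ 3 := one_le_pow₀ hr.le
  have m1 := mul_le_mul_of_nonneg_left l1 hB
  have m2 := mul_le_mul_of_nonneg_left l2 hD
  have m3 := mul_le_mul_of_nonneg_left l3 hG
  have e : (A + B + D + G) * r ^ 3 = A * r ^ 3 + B * r ^ 3 + D * r ^ 3 + G * r ^ 3 := by ring
  rw [e]
  linarith

theorem est_two {va vy vz ε r R T : ℝ} (h1 : 0 < va) (hε : 0 < ε) (hr : 1 < r)
    (hT : 16 * T ≤ ε * va) (hR : 16 * R < ε * va * r) (hvy : ε ≤ vy) (hvz : r / 2 ≤ vz)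
    (h : va * vy * vz ^ 2 ≤ R * r + T * r ^ 2) : False := by
  have hr0 : 0 < r := by linarith
  have k1 : (r / 2) ^ 2 ≤ vz ^ 2 := pow_le_pow_left₀ (by linarith) hvz 2
  have k2 : va * ε ≤ va * vy := mul_le_mul_of_nonneg_left hvy h1.le
  have k3 : va * ε * (r / 2) ^ 2 ≤ va * vy * vz ^ 2 :=
    mul_le_mul k2 k1 (by positivity) (by
      have : 0 ≤ vy := hε.le.trans hvy
      positivity)
  have k4 : 16 * R * r < ε * va * r * r := mul_lt_mul_of_pos_right hR hr0
  have k5 : 16 * T * r ^ 2 ≤ ε * va * r ^ 2 := mul_le_mul_of_nonneg_right hT (by positivity)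
  have k6 : 0 < ε * va * r ^ 2 := by positivity
  have e1 : va * ε * (r / 2) ^ 2 = ε * va * r ^ 2 / 4 := by ring
  have e2 : ε * va * r * r = ε * va * r ^ 2 := by ring
  rw [e1] at k3
  rw [e2] at k4
  linarith

theorem est_three {δ C₄ r y : ℝ} (hδ : 0 < δ) (hC : 0 < C₄) (hr : 1 < r)
    (h : y ^ 2 ≤ C₄ * r ^ 3) : y ≤ δ * r ^ 2 + C₄ / (4 * δ) * r := by
  have hr0 : 0 < r := by linarith
  have hpos : 0 ≤ δ * r ^ 2 + C₄ / (4 * δ) * r := by positivity
  have e : (δ * r ^ 2 + C₄ / (4 * δ) * r) ^ 2 - C₄ * r ^ 3 =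
      (δ * r ^ 2 - C₄ / (4 * δ) * r) ^ 2 := by
    field_simp
    ring
  have h2 : y ^ 2 ≤ (δ * r ^ 2 + C₄ / (4 * δ) * r) ^ 2 := by
    have := sq_nonneg (δ * r ^ 2 - C₄ / (4 * δ) * r)
    linarith
  exact le_of_sq_le_sq h2 hpos

theorem near {a b d g c : K} (ha : a ≠ 0) (h2 : (2 : K) ≠ 0) (hs : Sep a b d g)
    (hc : c ∈ SS a b d g 1) (hu : ∀ M : ℝ, ∃ x ∈ SS a b d g 1, M < v x) {ε : ℝ} (hε : 0 < ε) :
    ∃ y ∈ SS a b d g 1, y ≠ c ∧ v (y - c) < ε := by
  obtain ⟨w₀, hw₀⟩ := hc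
  rw [one_mul] at hw₀
  obtain ⟨α, hα⟩ : ∃ α, α = dcub a b d c := ⟨_, rfl⟩
  obtain ⟨β, hβ⟩ : ∃ β, β = g - b * c ^ 2 - 2 * a * c ^ 3 := ⟨_, rfl⟩
  have h4 : (4 : K) ≠ 0 := by
    have : (4 : K) = 2 * 2 := by norm_num
    rw [this]
    exact mul_ne_zero h2 h2
  -- the polynomial whose zeros have to be avoided
  have hG0 : ((C α * X + C (β + w₀ ^ 2)) ^ 2 -
      C (4 * w₀ ^ 2) * (C a * X ^ 3 + C b * X ^ 2 + C d * X + C g) : K[X]) ≠ 0 := by
    refine avoid b d g ?_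
    by_cases hw : w₀ = 0
    · right
      refine ⟨by rw [hw]; ring, ?_⟩
      obtain ⟨u, t, hut⟩ := hs
      intro h
      have h3 := hut c
      rw [← hw₀, hw, ← hα, h] at h3
      simp at h3
    · left
      exact mul_ne_zero (mul_ne_zero h4 (pow_ne_zero 2 hw)) ha
  obtain ⟨M₁, hM₁⟩ : ∃ M₁ : ℝ, ∀ x : K, M₁ < v x →
      (α * x + (β + w₀ ^ 2)) ^ 2 - 4 * w₀ ^ 2 * cub a b d g x ≠ 0 := by
    obtain ⟨M, hM⟩ := ((Polynomial.finite_setOfPred_isRoot hG0).image v).bddAbove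
    refine ⟨M, fun x hx h => ?_⟩
    refine absurd (hM ⟨x, ?_, rfl⟩) (not_le.2 hx)
    show eval x _ = 0
    simp only [eval_sub, eval_pow, eval_add, eval_mul, eval_C, eval_X]
    exact h
  have va : 0 < v a := v.pos ha
  have n0 := va.le
  have n1 := v.nonneg b
  have n2 := v.nonneg d
  have n3 := v.nonneg g
  have nα := v.nonneg α
  have nβ := v.nonneg β
  have n4 := v.nonneg 2
  have nw := v.nonneg w₀
  have nc := v.nonneg c
  obtain ⟨C₄, hC₄⟩ : ∃ C₄, C₄ = v a + v b + v d + v g := ⟨_, rfl⟩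
  have hC₄0 : 0 < C₄ := by
    rw [hC₄]
    positivity
  obtain ⟨δ, hδ⟩ : ∃ δ, δ = ε * v a / (16 * (v 2 * v w₀ + 1)) := ⟨_, rfl⟩
  have hδ0 : 0 < δ := by
    rw [hδ]
    positivity
  obtain ⟨R, hR⟩ : ∃ R, R = v α + v β + v 2 * v w₀ * (C₄ / (4 * δ)) + v w₀ ^ 2 := ⟨_, rfl⟩
  have hR0 : 0 ≤ R := by
    rw [hR]
    positivity
  obtain ⟨x, ⟨w, hw⟩, hx⟩ := hu (max M₁ (1 + 2 * v c + 16 * R / (ε * v a)))
  rw [one_mul] at hw
  have hx1 : M₁ < v x := (le_max_left _ _).trans_lt hx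
  have hx2 : 1 + 2 * v c + 16 * R / (ε * v a) < v x := (le_max_right _ _).trans_lt hx
  obtain ⟨r, hr⟩ : ∃ r, r = v x := ⟨_, rfl⟩
  rw [← hr] at hx2
  have hq0 : 0 ≤ 16 * R / (ε * v a) := by positivity
  have hr1 : 1 < r := by linarith
  have hr2 : 2 * v c < r := by linarith
  have hr3 : 16 * R < ε * v a * r := by
    have h5 : 16 * R / (ε * v a) < r := by linarith
    rw [div_lt_iff₀ (by positivity)] at h5
    linarith
  have hxc : c ≠ x := by
    rintro rfl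
    rw [← hr] at nc hr2
    linarith
  have hmem := third (κ := 1) ha one_ne_zero hxc (by rw [one_mul]; exact hw₀)
    (by rw [one_mul]; exact hw)
  obtain ⟨y, hy⟩ : ∃ y, y = (((w₀ - w) / (c - x)) ^ 2 / 1 - b) / a - c - x := ⟨_, rfl⟩
  rw [← hy] at hmem
  have hcx : c - x ≠ 0 := sub_ne_zero.2 hxc
  have hN : a * (y - c) * (x - c) ^ 2 = α * x + β - 2 * w * w₀ + w₀ ^ 2 := by
    have e1 : a * (y + c + x) + b = ((w₀ - w) / (c - x)) ^ 2 := by
      rw [hy]
      field_simp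
      ring
    have e2 : (a * (y + c + x) + b) * (c - x) ^ 2 = (w₀ - w) ^ 2 := by
      rw [e1]
      field_simp
    rw [hα, hβ]
    unfold dcub
    unfold cub at hw
    linear_combination e2 + hw
  have hyc : y ≠ c := by
    intro h
    rw [h, sub_self, mul_zero, zero_mul] at hN
    apply hM₁ x hx1
    have e3 : α * x + (β + w₀ ^ 2) = 2 * w * w₀ := by linear_combination -hN
    rw [e3]
    linear_combination (4 * w₀ ^ 2) * hw
  refine ⟨y, hmem, hyc, ?_⟩
  -- the estimate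
  have hw2 : v w ^ 2 ≤ C₄ * r ^ 3 := by
    rw [← map_pow, hw, hC₄]
    unfold cub
    have k1 := v.add_le (a * x ^ 3 + b * x ^ 2 + d * x) g
    have k2 := v.add_le (a * x ^ 3 + b * x ^ 2) (d * x)
    have k3 := v.add_le (a * x ^ 3) (b * x ^ 2)
    rw [map_mul, map_pow, map_mul, map_pow, ← hr] at k3
    rw [map_mul v d x, ← hr] at k2
    have k4 := est_one (A := v a) n1 n2 n3 hr1
    linarith
  have hw3 : v w ≤ δ * r ^ 2 + C₄ / (4 * δ) * r := est_three hδ0 hC₄0 hr1 hw2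
  have hxc2 : r / 2 ≤ v (x - c) := by
    have h5 := v.add_le (x - c) c
    rw [sub_add_cancel, ← hr] at h5
    linarith
  have hNv : v (α * x + β - 2 * w * w₀ + w₀ ^ 2) ≤
      v α * r + v β + v 2 * v w₀ * (δ * r ^ 2 + C₄ / (4 * δ) * r) + v w₀ ^ 2 := by
    have k1 := v.add_le (α * x + β - 2 * w * w₀) (w₀ ^ 2)
    have k2 := v.sub_le_add (α * x + β) (2 * w * w₀)
    have k3 := v.add_le (α * x) β
    rw [map_pow] at k1
    rw [map_mul v (2 * w) w₀, map_mul v 2 w] at k2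
    rw [map_mul, ← hr] at k3
    have k4 : v 2 * v w * v w₀ ≤ v 2 * v w₀ * (δ * r ^ 2 + C₄ / (4 * δ) * r) := by
      calc v 2 * v w * v w₀ = v 2 * v w₀ * v w := by ring
        _ ≤ _ := mul_le_mul_of_nonneg_left hw3 (by positivity)
    linarith
  have hfin : v a * v (y - c) * v (x - c) ^ 2 ≤ R * r + v 2 * v w₀ * δ * r ^ 2 := by
    rw [← map_mul, ← map_pow, ← map_mul, hN]
    refine hNv.trans ?_
    rw [hR]
    have m1 : v β ≤ v β * r := le_mul_of_one_le_right nβ hr1.le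
    have m2 : v w₀ ^ 2 ≤ v w₀ ^ 2 * r := le_mul_of_one_le_right (sq_nonneg _) hr1.le
    have e : (v α + v β + v 2 * v w₀ * (C₄ / (4 * δ)) + v w₀ ^ 2) * r + v 2 * v w₀ * δ * r ^ 2 =
        v α * r + v β * r + v 2 * v w₀ * (δ * r ^ 2 + C₄ / (4 * δ) * r) + v w₀ ^ 2 * r := by
      ring
    rw [e]
    linarith
  have h8 : 16 * (v 2 * v w₀ * δ) ≤ ε * v a := by
    have e : 16 * (v 2 * v w₀ * δ) = ε * v a * (v 2 * v w₀ / (v 2 * v w₀ + 1)) := by
      rw [hδ]
      field_simp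
    rw [e]
    have h5 : v 2 * v w₀ / (v 2 * v w₀ + 1) ≤ 1 := by
      rw [div_le_one (by positivity)]
      linarith
    exact mul_le_of_le_one_right (by positivity) h5
  by_contra hcon
  push Not at hcon
  exact est_two va hε hr1 h8 hr3 hcon hxc2 hfin

/-- polynomial functions on a punctured cubic curve with values in a set which is bounded at a place
have finitely many values -/
theorem pct_fin {v : AbsoluteValue K ℝ} (hv : LC v) (h2 : (2 : K) ≠ 0) {O : Set K} (hO : Bdd v O)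
    {f : K[X]} (hd : f.natDegree = 3) (hsep : f.Separable) {P : Finset K}
    (hP : ∀ c ∈ P, ∃ w, w ^ 2 = f.eval c) : Rigid O (Pct f P) := by
  classical
  intro p hp
  obtain ⟨a, b, d, g, ha, hf, hf'⟩ : ∃ a b d g : K, a ≠ 0 ∧ (∀ x, f.eval x = cub a b d g x) ∧
      ∀ x, (derivative f).eval x = dcub a b d x := by
    refine ⟨f.coeff 3, f.coeff 2, f.coeff 1, f.coeff 0, ?_, fun x => ?_, fun x => ?_⟩
    · have h : f.leadingCoeff ≠ 0 := by
        rw [leadingCoeff_ne_zero]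
        rintro rfl
        simp at hd
      rwa [leadingCoeff, hd] at h
    · rw [eval_eq_sum_range, hd]
      simp [Finset.sum_range_succ, cub]
      ring
    · have h3 : (derivative f).natDegree < 3 := by
        rw [← hd]
        exact natDegree_derivative_lt (by omega)
      rw [eval_eq_sum_range' h3]
      simp [Finset.sum_range_succ, dcub, coeff_derivative]
      ring
  have hs : Sep a b d g := by
    obtain ⟨u, t, hut⟩ := hsep
    refine ⟨u, t, fun x => ?_⟩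
    rw [← hf, ← hf']
    have := congrArg (eval x) hut
    simpa using this
  have hSS : Ab f 1 = SS a b d g 1 := by
    ext x
    show (∃ w, w ^ 2 = 1 * f.eval x) ↔ ∃ w, w ^ 2 = 1 * cub a b d g x
    rw [hf]
  by_cases hfin : (Ab f 1).Finite
  · -- finitely many points
    have h1 : (Pct f P).Finite := by
      have h3 : Pct f P ⊆ ⋃ x ∈ Ab f 1, (fun w : K => ![x, w, (∏ c ∈ P, (x - c))⁻¹]) ''
          {w | w ^ 2 = f.eval x} := by
        rintro z ⟨hz1, hz2⟩
        simp only [Set.mem_iUnion]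
        refine ⟨z 0, ⟨z 1, by rw [hz1, one_mul]⟩, z 1, hz1, ?_⟩
        funext i
        fin_cases i
        · rfl
        · rfl
        · exact (eq_inv_of_mul_eq_one_left hz2).symm
      refine (hfin.biUnion fun x _ => Set.Finite.image _ ?_).subset h3
      have h4 : (X ^ 2 - C (f.eval x) : K[X]) ≠ 0 := X_pow_sub_C_ne_zero (by norm_num) _
      refine (Polynomial.finite_setOfPred_isRoot h4).subset fun u hu => ?_
      show eval u _ = 0
      rw [eval_sub, eval_pow, eval_X, eval_C]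
      exact sub_eq_zero.2 hu
    exact h1.image _
  · have hinf : (SS a b d g 1).Infinite := by
      rw [← hSS]
      exact hfin
    have hu : ∀ M : ℝ, ∃ x ∈ SS a b d g 1, M < v x := fun M =>
      t_two hv ha h2 hs one_ne_zero hinf M
    obtain ⟨a₀, ha₀⟩ := pct_const h2 hO (f := f) (by rw [hd]; decide) (P := P)
      (fun M => by rw [hSS]; exact hu M) (fun c hc ε hε => by
        rw [hSS]
        refine near ha h2 hs ?_ hu hε
        obtain ⟨w, hw⟩ := hP c hc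
        exact ⟨w, by rw [hw, hf, one_mul]⟩) p hp
    refine (Set.finite_singleton a₀).subset ?_
    rintro _ ⟨z, hz, rfl⟩
    exact ha₀ z hz

end

end Pool.Agent.V7H58.EC
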