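import Pool.Agent.V7H58.EC.Cov

/-!
# Quotients of products of double covers of the line by groups of sign changes
-/

set_option autoImplicit false

namespace Pool.Agent.V7H58.EC

open Polynomial

section

variable {K : Type} [Field K] {ι : Type} [DecidableEq ι]

/-- The equations of the quotient of the product of the curves `yᵢ² = fᵢ(xᵢ)` by a group of changes
of signs of the `yᵢ`, or of a twist of it: the coordinates are the `xᵢ` and the products `z_A` of the
`yᵢ`, `i ∈ A`, for the sets `A` in `𝒜` (for which the product is invariant); the product of `z_A` and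
`z_B` is `z_D ∏ fᵢ(xᵢ)`, `D` the symmetric difference of `A` and `B` and `i` in their intersection, up
to the constant `c A B`. -/
def Quo (f : ι → K[X]) (𝒜 : Finset (Finset ι)) (c : 𝒜 → 𝒜 → K) : Set (ι ⊕ 𝒜 → K) :=
  {z | (∀ A : 𝒜, (A : Finset ι) = ∅ → z (Sum.inr A) = 1) ∧
    ∀ A B D : 𝒜, (D : Finset ι) = symmDiff (A : Finset ι) B →
      z (Sum.inr A) * z (Sum.inr B) =
        c A B * z (Sum.inr D) * ∏ i ∈ (A : Finset ι) ∩ B, (f i).eval (z (Sum.inl i))}

theorem quo_cover (f : ι → K[X]) (𝒜 : Finset (Finset ι)) (c : 𝒜 → 𝒜 → K) (h0 : ∅ ∈ 𝒜) :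
    Quo f 𝒜 c ⊆ Cover f (fun A => c A A) (fun A : 𝒜 => (A : Finset ι)) := by
  intro z hz A
  have h1 := hz.2 A A ⟨∅, h0⟩ (by simp)
  have h2 := hz.1 ⟨∅, h0⟩ rfl
  rw [h2, Finset.inter_self, mul_one] at h1
  rw [sq]
  exact h1

theorem quo_closed (f : ι → K[X]) (𝒜 : Finset (Finset ι)) (c : 𝒜 → 𝒜 → K) :
    Closed f (fun A : 𝒜 => (A : Finset ι)) (Quo f 𝒜 c) := by
  intro s hs i ξ τ h
  refine ⟨fun A hA => ?_, fun A B D hD => ?_⟩
  · show s (Sum.inr A) * (if i ∈ (A : Finset ι) then τ else 1) = 1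
    rw [hs.1 A hA, hA]
    simp
  · show (s (Sum.inr A) * (if i ∈ (A : Finset ι) then τ else 1)) *
        (s (Sum.inr B) * (if i ∈ (B : Finset ι) then τ else 1)) =
      c A B * (s (Sum.inr D) * (if i ∈ (D : Finset ι) then τ else 1)) *
        ∏ k ∈ (A : Finset ι) ∩ B, (f k).eval (Function.update (fun k => s (Sum.inl k)) i ξ k)
    have h1 := hs.2 A B D hD
    have hout : ∀ E : Finset ι, i ∉ E →
        ∏ k ∈ E, (f k).eval (Function.update (fun k => s (Sum.inl k)) i ξ k) =
          ∏ k ∈ E, (f k).eval (s (Sum.inl k)) := by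
      intro E hE
      refine Finset.prod_congr rfl fun k hk => ?_
      rw [Function.update_of_ne]
      rintro rfl
      exact hE hk
    have hmem : i ∈ (D : Finset ι) ↔ (i ∈ (A : Finset ι) ∧ i ∉ (B : Finset ι)) ∨
        (i ∈ (B : Finset ι) ∧ i ∉ (A : Finset ι)) := by
      rw [hD, Finset.mem_symmDiff]
    by_cases hA : i ∈ (A : Finset ι) <;> by_cases hB : i ∈ (B : Finset ι)
    · have hI : i ∈ (A : Finset ι) ∩ B := Finset.mem_inter.2 ⟨hA, hB⟩
      have hD' : i ∉ (D : Finset ι) := by rw [hmem]; tauto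
      rw [if_pos hA, if_pos hB, if_neg hD', ← Finset.mul_prod_erase _ _ hI,
        hout _ (Finset.notMem_erase i _), Function.update_self, h]
      rw [← Finset.mul_prod_erase _ _ hI] at h1
      linear_combination τ ^ 2 * h1
    · have hI : i ∉ (A : Finset ι) ∩ B := fun h => hB (Finset.mem_inter.1 h).2
      have hD' : i ∈ (D : Finset ι) := by rw [hmem]; tauto
      rw [if_pos hA, if_neg hB, if_pos hD', hout _ hI]
      linear_combination τ * h1
    · have hI : i ∉ (A : Finset ι) ∩ B := fun h => hA (Finset.mem_inter.1 h).1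
      have hD' : i ∈ (D : Finset ι) := by rw [hmem]; tauto
      rw [if_neg hA, if_pos hB, if_pos hD', hout _ hI]
      linear_combination τ * h1
    · have hI : i ∉ (A : Finset ι) ∩ B := fun h => hA (Finset.mem_inter.1 h).1
      have hD' : i ∉ (D : Finset ι) := by rw [hmem]; tauto
      rw [if_neg hA, if_neg hB, if_neg hD', hout _ hI]
      linear_combination h1

end

end Pool.Agent.V7H58.EC
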