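import Mathlib

/-!
# Nonarchimedean absolute values with totally bounded balls
-/

set_option autoImplicit false

namespace Pool.Agent.V7H58.EC

open WithZeroMulInt

/-- a nontrivial absolute value whose balls are totally bounded -/
structure LC {K : Type} [Field K] (a : AbsoluteValue K ℝ) : Prop where
  nt : ∃ x : K, 1 < a x
  tb : ∀ M δ : ℝ, 0 < δ → ∃ N : ℕ, ∀ s : Finset K, (∀ x ∈ s, a x ≤ M) →
    (∀ x ∈ s, ∀ y ∈ s, x ≠ y → δ ≤ a (x - y)) → s.card ≤ N

/-- a nonarchimedean absolute value -/
def NA {K : Type} [Field K] (a : AbsoluteValue K ℝ) : Prop :=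
  ∀ x y : K, a (x + y) ≤ max (a x) (a y)

section nf

variable {K : Type} [Field K] [NumberField K]
  (v : IsDedekindDomain.HeightOneSpectrum (NumberField.RingOfIntegers K))

/-- the absolute value of a finite place -/
noncomputable def abv : AbsoluteValue K ℝ := NumberField.HeightOneSpectrum.adicAbv K v

theorem abv_le_iff (x y : K) : abv v x ≤ abv v y ↔ v.valuation K x ≤ v.valuation K y := by
  unfold abv
  rw [NumberField.HeightOneSpectrum.adicAbv_def, NumberField.HeightOneSpectrum.adicAbv_def]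
  rw [NNReal.coe_le_coe]
  exact (toNNReal_strictMono (NumberField.HeightOneSpectrum.one_lt_absNorm_nnreal v)).le_iff_le

theorem abv_le_one_iff (x : K) : abv v x ≤ 1 ↔ v.valuation K x ≤ 1 := by
  have h := abv_le_iff v x 1
  rwa [map_one, map_one] at h

theorem na_abv : NA (abv (K := K) v) := NumberField.HeightOneSpectrum.adicAbv_add_le_max K v

theorem lc_abv : LC (abv (K := K) v) := by
  classical
  obtain ⟨π, hπ⟩ := v.intValuation_exists_uniformizer
  have hπv : v.valuation K (algebraMap _ K π) = WithZero.exp (-1 : ℤ) := by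
    rw [IsDedekindDomain.HeightOneSpectrum.valuation_of_algebraMap, hπ]
  set ϖ : K := algebraMap _ K π with hϖ
  have hϖ0 : ϖ ≠ 0 := by
    intro h
    rw [h, map_zero] at hπv
    exact WithZero.zero_ne_coe hπv
  have hπ1 : abv v ϖ < 1 := by
    rw [← not_le]
    intro h
    have h1 := (abv_le_iff v 1 ϖ).1 (by rwa [map_one])
    rw [map_one, hπv] at h1
    exact absurd h1 (by decide)
  have hπ0 : 0 < abv v ϖ := (abv v).pos hϖ0
  refine ⟨⟨ϖ⁻¹, ?_⟩, fun M δ hδ => ?_⟩
  · rw [map_inv₀]
    exact one_lt_inv_iff₀.2 ⟨hπ0, hπ1⟩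
  obtain ⟨m, hm⟩ := exists_pow_lt_of_lt_one (y := abv v ϖ) (x := (max M 1)⁻¹) (by positivity) hπ1
  obtain ⟨n, hn⟩ := exists_pow_lt_of_lt_one (y := abv v ϖ) (x := δ * (abv v ϖ) ^ m) (by positivity)
    hπ1
  have hfin : Finite (NumberField.RingOfIntegers K ⧸ v.asIdeal ^ n) := by
    refine Ideal.finiteQuotientOfFreeOfNeBot _ ?_
    exact pow_ne_zero _ v.ne_bot
  refine ⟨Nat.card (NumberField.RingOfIntegers K ⧸ v.asIdeal ^ n), fun s hs hsep => ?_⟩
  have key : ∀ x ∈ s, ∃ r : NumberField.RingOfIntegers K,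
      v.valuation K (algebraMap _ K r - ϖ ^ m * x) ≤ WithZero.exp (-(n : ℤ)) := by
    intro x hx
    have h1 : v.valuation K (ϖ ^ m * x) ≤ 1 := by
      rw [← abv_le_one_iff, map_mul, map_pow]
      calc abv v ϖ ^ m * abv v x ≤ (max M 1)⁻¹ * max M 1 :=
            mul_le_mul hm.le ((hs x hx).trans (le_max_left _ _)) ((abv v).nonneg _)
              (by positivity)
        _ = 1 := inv_mul_cancel₀ (by positivity)
    obtain ⟨r, hr⟩ := v.exists_valuation_sub_lt_of_integer h1
      (Units.mk0 (WithZero.exp (-(n : ℤ))) (by simp))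
    exact ⟨r, hr.le⟩
  choose! r hr using key
  have hinj : Set.InjOn (fun x => (Ideal.Quotient.mk (v.asIdeal ^ n) (r x))) (s : Set K) := by
    intro x hx y hy hxy
    by_contra hne
    have h1 : r x - r y ∈ v.asIdeal ^ n := Ideal.Quotient.eq.1 hxy
    rw [← v.intValuation_le_pow_iff_mem, ← v.valuation_of_algebraMap (K := K)] at h1
    have h2 : v.valuation K (ϖ ^ m * x - ϖ ^ m * y) ≤ WithZero.exp (-(n : ℤ)) := by
      have e : ϖ ^ m * x - ϖ ^ m * y = (algebraMap _ K (r x - r y)) +
          ((algebraMap _ K (r y) - ϖ ^ m * y) - (algebraMap _ K (r x) - ϖ ^ m * x)) := by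
        rw [map_sub]
        ring
      rw [e]
      refine (v.valuation K).map_add_le h1 ?_
      exact (v.valuation K).map_sub_le (hr y hy) (hr x hx)
    have h3 : WithZero.exp (-(n : ℤ)) = v.valuation K (ϖ ^ n) := by
      rw [map_pow, hπv, ← WithZero.exp_nsmul]
      simp
    rw [h3, ← abv_le_iff, ← mul_sub, map_mul, map_pow, map_pow] at h2
    have h4 := hsep x hx y hy hne
    have h5 : δ * abv v ϖ ^ m ≤ abv v ϖ ^ m * abv v (x - y) := by
      rw [mul_comm]
      exact mul_le_mul_of_nonneg_left h4 (by positivity)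
    linarith
  calc s.card = (s.image fun x => (Ideal.Quotient.mk (v.asIdeal ^ n) (r x))).card :=
        (Finset.card_image_of_injOn hinj).symm
    _ ≤ Nat.card (NumberField.RingOfIntegers K ⧸ v.asIdeal ^ n) := by
        have := Fintype.ofFinite (NumberField.RingOfIntegers K ⧸ v.asIdeal ^ n)
        rw [Nat.card_eq_fintype_card]
        exact Finset.card_le_univ _

end nf

section arch

/-- the absolute value of a complex embedding -/
noncomputable def cabv {K : Type} [Field K] (σ : K →+* ℂ) : AbsoluteValue K ℝ where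
  toFun x := ‖σ x‖
  map_mul' x y := by simp
  nonneg' x := norm_nonneg _
  eq_zero' x := by simp
  add_le' x y := by
    rw [map_add]
    exact norm_add_le _ _

theorem lc_cabv {K : Type} [Field K] [CharZero K] (σ : K →+* ℂ) : LC (cabv σ) := by
  classical
  refine ⟨⟨2, ?_⟩, fun M δ hδ => ?_⟩
  · show 1 < ‖σ 2‖
    rw [map_ofNat]
    norm_num
  have h1 : TotallyBounded (Metric.closedBall (0 : ℂ) M) :=
    (isCompact_closedBall (0 : ℂ) M).totallyBounded
  obtain ⟨t, ht, htc⟩ := Metric.totallyBounded_iff.1 h1 (δ / 2) (by positivity)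
  refine ⟨ht.toFinset.card, fun s hs hsep => ?_⟩
  have key : ∀ x ∈ s, ∃ c ∈ t, dist (σ x) c < δ / 2 := by
    intro x hx
    have h2 : σ x ∈ Metric.closedBall (0 : ℂ) M := by
      rw [mem_closedBall_zero_iff]
      exact hs x hx
    have h3 := htc h2
    simp only [Set.mem_iUnion] at h3
    obtain ⟨c, hc, hx'⟩ := h3
    exact ⟨c, hc, hx'⟩
  choose! c hc hcd using key
  refine Finset.card_le_card_of_injOn c (fun x hx => ?_) fun x hx y hy hxy => ?_
  · exact (Set.Finite.mem_toFinset ht).2 (hc x hx)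
  · by_contra hne
    have h4 := hsep x hx y hy hne
    have h5 : dist (σ x) (σ y) < δ := by
      have h6 := dist_triangle_right (σ x) (σ y) (c x)
      have h7 := hcd x hx
      have h8 := hcd y hy
      rw [← hxy] at h8
      linarith
    have h9 : cabv σ (x - y) = dist (σ x) (σ y) := by
      show ‖σ (x - y)‖ = _
      rw [map_sub, dist_eq_norm]
    rw [h9] at h4
    linarith

end arch

end Pool.Agent.V7H58.EC
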