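import Pool.Agent.V7H58.EC.Good

/-!
# Polynomial functions on the points of covers of products of lines
-/

set_option autoImplicit false

namespace Pool.Agent.V7H58.EC

open Polynomial

section red

variable {R : Type} [Field R] {σ : Type}

/-- polynomial functions on a double cover of the line -/
theorem red (F : R[X]) (α β : σ → R[X]) (p : MvPolynomial σ R) :
    ∃ A B : R[X], ∀ ξ τ : R, τ ^ 2 = F.eval ξ →
      MvPolynomial.eval (fun k => (α k).eval ξ + τ * (β k).eval ξ) p =
        A.eval ξ + τ * B.eval ξ := by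
  induction p using MvPolynomial.induction_on with
  | C c => exact ⟨C c, 0, fun ξ τ _ => by simp⟩
  | add p q hp hq =>
    obtain ⟨A₁, B₁, h1⟩ := hp
    obtain ⟨A₂, B₂, h2⟩ := hq
    refine ⟨A₁ + A₂, B₁ + B₂, fun ξ τ h => ?_⟩
    rw [map_add, h1 ξ τ h, h2 ξ τ h, eval_add, eval_add]
    ring
  | mul_X p k hp =>
    obtain ⟨A, B, h1⟩ := hp
    refine ⟨A * α k + B * β k * F, A * β k + B * α k, fun ξ τ h => ?_⟩
    rw [map_mul, h1 ξ τ h, MvPolynomial.eval_X]
    simp only [eval_add, eval_mul]
    linear_combination (B.eval ξ * (β k).eval ξ) * h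

end red

section main

variable {K : Type} [Field K] {ι J : Type} [DecidableEq ι]

/-- the equations of the cover -/
def Cover (f : ι → K[X]) (e : J → K) (ε : J → Finset ι) : Set (ι ⊕ J → K) :=
  {z | ∀ j, z (Sum.inr j) ^ 2 = e j * ∏ i ∈ ε j, (f i).eval (z (Sum.inl i))}

/-- moving one coordinate -/
def mv1 (ε : J → Finset ι) (i : ι) (s : ι ⊕ J → K) (ξ τ : K) : ι ⊕ J → K :=
  Sum.elim (Function.update (fun k => s (Sum.inl k)) i ξ)
    (fun j => s (Sum.inr j) * if i ∈ ε j then τ else 1)

/-- a set which is closed under the moves of one coordinate -/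
def Closed (f : ι → K[X]) (ε : J → Finset ι) (Y : Set (ι ⊕ J → K)) : Prop :=
  ∀ s ∈ Y, ∀ i, ∀ ξ τ : K, (f i).eval ξ = τ ^ 2 * (f i).eval (s (Sum.inl i)) →
    mv1 ε i s ξ τ ∈ Y

theorem mv1_self (ε : J → Finset ι) (i : ι) (s : ι ⊕ J → K) :
    mv1 ε i s (s (Sum.inl i)) 1 = s := by
  funext k
  rcases k with k | j
  · show Function.update (fun k => s (Sum.inl k)) i (s (Sum.inl i)) k = s (Sum.inl k)
    by_cases hk : k = i
    · subst hk
      simp
    · simp [hk]
  · show s (Sum.inr j) * (if i ∈ ε j then (1 : K) else 1) = s (Sum.inr j)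
    simp

theorem cover_closed (f : ι → K[X]) (e : J → K) (ε : J → Finset ι) :
    Closed f ε (Cover f e ε) := by
  intro s hs i ξ τ h j
  show (s (Sum.inr j) * if i ∈ ε j then τ else 1) ^ 2 = e j *
    ∏ k ∈ ε j, (f k).eval (Function.update (fun k => s (Sum.inl k)) i ξ k)
  rw [mul_pow, hs j, mul_assoc]
  congr 1
  by_cases hj : i ∈ ε j
  · rw [if_pos hj, ← Finset.mul_prod_erase _ _ hj, ← Finset.mul_prod_erase (ε j) (fun k =>
      (f k).eval (Function.update (fun k => s (Sum.inl k)) i ξ k)) hj]
    simp only [Function.update_self]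
    rw [h]
    have h1 : ∏ k ∈ (ε j).erase i, (f k).eval (Function.update (fun k => s (Sum.inl k)) i ξ k) =
        ∏ k ∈ (ε j).erase i, (f k).eval (s (Sum.inl k)) := by
      refine Finset.prod_congr rfl fun k hk => ?_
      rw [Function.update_of_ne (Finset.ne_of_mem_erase hk)]
    rw [h1]
    ring
  · rw [if_neg hj, one_pow, mul_one]
    refine Finset.prod_congr rfl fun k hk => ?_
    rw [Function.update_of_ne]
    rintro rfl
    exact hj hk

variable {L : Type} [Field L] [Algebra K L]

/-- moving several coordinates, over an extension -/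
def mv (ε : J → Finset ι) (I : Finset ι) (s : ι ⊕ J → K) (X t : ι → L) : ι ⊕ J → L :=
  Sum.elim (fun i => if i ∈ I then X i else algebraMap K L (s (Sum.inl i)))
    (fun j => algebraMap K L (s (Sum.inr j)) * ∏ i ∈ ε j, if i ∈ I then t i else 1)

theorem prod_aux {R : Type} [CommMonoid R] (E I : Finset ι) (i : ι) (hi : i ∉ I) (t : ι → R)
    (τ : R) : (∏ k ∈ E, if k ∈ insert i I then Function.update t i τ k else 1) =
      (if i ∈ E then τ else 1) * ∏ k ∈ E, if k ∈ I then t k else 1 := by
  have h1 : ∀ k, (if k ∈ insert i I then Function.update t i τ k else 1) =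
      (if k = i then τ else 1) * (if k ∈ I then t k else 1) := by
    intro k
    by_cases hk : k = i
    · subst hk
      simp [hi]
    · simp [hk]
  rw [Finset.prod_congr rfl fun k _ => h1 k, Finset.prod_mul_distrib]
  congr 1
  rw [Finset.prod_ite_eq']

theorem mv_mv1 (ε : J → Finset ι) (I : Finset ι) (i : ι) (hi : i ∉ I) (s : ι ⊕ J → K)
    (X t : ι → L) (ξ τ : K) : mv ε I (mv1 ε i s ξ τ) X t =
      mv ε (insert i I) s (Function.update X i (algebraMap K L ξ))
        (Function.update t i (algebraMap K L τ)) := by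
  funext z
  rcases z with k | j
  · show (if k ∈ I then X k else algebraMap K L (Function.update (fun k => s (Sum.inl k)) i ξ k)) =
      if k ∈ insert i I then Function.update X i (algebraMap K L ξ) k else _
    by_cases hk : k = i
    · subst hk
      simp [hi]
    · simp [hk]
  · show algebraMap K L (s (Sum.inr j) * if i ∈ ε j then τ else 1) *
      (∏ k ∈ ε j, if k ∈ I then t k else 1) = algebraMap K L (s (Sum.inr j)) *
      ∏ k ∈ ε j, if k ∈ insert i I then Function.update t i (algebraMap K L τ) k else 1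
    rw [prod_aux (ε j) I i hi, map_mul]
    by_cases h : i ∈ ε j
    · simp only [h, if_true]
      ring
    · simp only [h, if_false, map_one]
      ring

/-- the constancy in one direction -/
theorem dir {O : Set K} {f : ι → K[X]} {i : ι} (ε : J → Finset ι)
    {Y : Set (ι ⊕ J → K)} (hY : Closed f ε Y) (p : MvPolynomial (ι ⊕ J) K)
    (hB : ∀ z ∈ Y, MvPolynomial.eval z p ∈ O) {s : ι ⊕ J → K} (hsY : s ∈ Y)
    (hc : (f i).eval (s (Sum.inl i)) ≠ 0)
    (hR : Rg O (f i) ((f i).eval (s (Sum.inl i)))⁻¹) {ξ τ : K}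
    (hξ : (f i).eval ξ = τ ^ 2 * (f i).eval (s (Sum.inl i))) :
    MvPolynomial.eval (mv1 ε i s ξ τ) p = MvPolynomial.eval s p := by
  set c := (f i).eval (s (Sum.inl i)) with hcdef
  set F : K[X] := C c⁻¹ * f i with hF
  have hFe : ∀ x, F.eval x = c⁻¹ * (f i).eval x := by
    intro x
    simp [hF]
  obtain ⟨A, B', hAB⟩ := red F
    (fun k : ι ⊕ J => Sum.elim (fun k => if k = i then (X : K[X]) else C (s (Sum.inl k)))
      (fun j => if i ∈ ε j then 0 else C (s (Sum.inr j))) k)
    (fun k : ι ⊕ J => Sum.elim (fun _ => (0 : K[X]))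
      (fun j => if i ∈ ε j then C (s (Sum.inr j)) else 0) k) p
  have hmv : ∀ x y : K, y ^ 2 = F.eval x →
      MvPolynomial.eval (mv1 ε i s x y) p = A.eval x + y * B'.eval x := by
    intro x y hxy
    rw [← hAB x y hxy]
    refine congrArg (fun h => MvPolynomial.eval h p) (funext fun k => ?_)
    rcases k with k | j
    · show Function.update (fun k => s (Sum.inl k)) i x k =
        eval x (if k = i then (X : K[X]) else C (s (Sum.inl k))) + y * eval x (0 : K[X])
      by_cases hk : k = i
      · subst hk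
        simp
      · simp [hk]
    · show s (Sum.inr j) * (if i ∈ ε j then y else 1) =
        eval x (if i ∈ ε j then (0 : K[X]) else C (s (Sum.inr j))) +
          y * eval x (if i ∈ ε j then C (s (Sum.inr j)) else (0 : K[X]))
      by_cases hj : i ∈ ε j
      · simp [hj, mul_comm]
      · simp [hj]
  obtain ⟨hA, hB0⟩ := hR A B' fun x y hxy => by
    rw [← hmv x y (by rw [hFe]; exact hxy)]
    refine hB _ (hY s hsY i x y ?_)
    rw [hxy, ← hcdef]
    field_simp
  have h7 : MvPolynomial.eval (mv1 ε i s ξ τ) p = A.coeff 0 := by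
    rw [hmv ξ τ ?_, hA, hB0]
    · simp
    · rw [hFe, hξ]
      field_simp
  have h8 : MvPolynomial.eval s p = A.coeff 0 := by
    have h10 := hmv (s (Sum.inl i)) 1 (by
      rw [hFe, ← hcdef, inv_mul_cancel₀ hc, one_pow])
    rw [mv1_self] at h10
    rw [h10, hA, hB0]
    simp
  rw [h7, h8]

theorem map_ev (f : K[X]) (x : K) : algebraMap K L (f.eval x) =
    (f.map (algebraMap K L)).eval (algebraMap K L x) := by
  rw [eval_map, eval₂_at_apply]

theorem claim (h2 : (2 : K) ≠ 0) {O : Set K} {f : ι → K[X]} (hf0 : ∀ i, f i ≠ 0)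
    {E : ι → Set K}
    (hE : ∀ i, ∀ κ : K, κ ≠ 0 → ∀ x ∈ Ab (f i) κ, x ∉ E i →
      (Ab (f i) κ).Infinite ∧ Rg O (f i) κ) (ε : J → Finset ι)
    {Y : Set (ι ⊕ J → K)} (hY : Closed f ε Y) (p : MvPolynomial (ι ⊕ J) K)
    (hB : ∀ z ∈ Y, MvPolynomial.eval z p ∈ O) (I : Finset ι) : ∀ s ∈ Y,
    (∀ i ∈ I, (f i).eval (s (Sum.inl i)) ≠ 0 ∧ s (Sum.inl i) ∉ E i) →
    ∀ X t : ι → L, (∀ i ∈ I, ((f i).map (algebraMap K L)).eval (X i) =
        t i ^ 2 * algebraMap K L ((f i).eval (s (Sum.inl i)))) →
    MvPolynomial.eval (mv ε I s X t) (MvPolynomial.map (algebraMap K L) p) =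
      algebraMap K L (MvPolynomial.eval s p) := by
  have h2L : (2 : L) ≠ 0 := by
    have h := (map_ne_zero (algebraMap K L)).2 h2
    rwa [map_ofNat] at h
  induction I using Finset.induction_on with
  | empty =>
    intro s hsY _ X t _
    have h1 : mv ε ∅ s X t = fun k => algebraMap K L (s k) := by
      funext k
      rcases k with k | j
      · simp [mv]
      · simp [mv]
    rw [h1, MvPolynomial.eval_map]
    exact MvPolynomial.eval₂_comp_left (algebraMap K L) (RingHom.id K) s p |>.symm ▸ by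
      simp [Function.comp_def]
  | insert i I hi ih =>
    intro s hsY hsI X t hXt
    obtain ⟨hc, hxE⟩ := hsI i (Finset.mem_insert_self i I)
    set c := (f i).eval (s (Sum.inl i)) with hcdef
    set φ := algebraMap K L with hφ
    have hφc : φ c ≠ 0 := (map_ne_zero φ).2 hc
    obtain ⟨hinf, hRg⟩ : (Ab (f i) c⁻¹).Infinite ∧ Rg O (f i) c⁻¹ := by
      refine hE i c⁻¹ (inv_ne_zero hc) (s (Sum.inl i)) ⟨1, ?_⟩ hxE
      rw [← hcdef, inv_mul_cancel₀ hc, one_pow]
    set F : L[X] := C (φ c)⁻¹ * (f i).map φ with hF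
    have hFe : ∀ x, F.eval x = (φ c)⁻¹ * ((f i).map φ).eval x := by
      intro x
      simp [hF]
    have hFφ : ∀ x : K, F.eval (φ x) = φ (c⁻¹ * (f i).eval x) := by
      intro x
      rw [hFe, map_mul, map_inv₀]
      congr 1
      exact (map_ev _ _).symm
    set W : J → L := fun j => φ (s (Sum.inr j)) * ∏ k ∈ ε j, if k ∈ I then t k else 1 with hW
    obtain ⟨A, B', hAB⟩ := red F
      (fun k : ι ⊕ J => Sum.elim (fun k => if k = i then (Polynomial.X : L[X]) else
        (if k ∈ I then C (X k) else C (φ (s (Sum.inl k)))))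
        (fun j => if i ∈ ε j then 0 else C (W j)) k)
      (fun k : ι ⊕ J => Sum.elim (fun _ => (0 : L[X]))
        (fun j => if i ∈ ε j then C (W j) else 0) k) (MvPolynomial.map φ p)
    have hmv : ∀ x y : L, y ^ 2 = F.eval x →
        MvPolynomial.eval (mv ε (insert i I) s (Function.update X i x) (Function.update t i y))
          (MvPolynomial.map φ p) = A.eval x + y * B'.eval x := by
      intro x y hxy
      rw [← hAB x y hxy]
      refine congrArg (fun h => MvPolynomial.eval h (MvPolynomial.map φ p)) (funext fun k => ?_)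
      rcases k with k | j
      · show (if k ∈ insert i I then Function.update X i x k else φ (s (Sum.inl k))) =
          eval x (if k = i then (Polynomial.X : L[X]) else
            (if k ∈ I then C (X k) else C (φ (s (Sum.inl k))))) + y * eval x (0 : L[X])
        by_cases hk : k = i
        · subst hk
          simp
        · by_cases hkI : k ∈ I
          · simp [hk, hkI]
          · simp [hk, hkI]
      · show φ (s (Sum.inr j)) *
            (∏ k ∈ ε j, if k ∈ insert i I then Function.update t i y k else 1) =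
          eval x (if i ∈ ε j then (0 : L[X]) else C (W j)) +
            y * eval x (if i ∈ ε j then C (W j) else (0 : L[X]))
        rw [prod_aux (ε j) I i hi]
        by_cases hj : i ∈ ε j
        · simp only [hj, if_true, eval_zero, eval_C, hW, zero_add]
          ring
        · simp only [hj, if_false, eval_zero, eval_C, hW, mul_zero, add_zero, one_mul]
    have hpt : ∀ x y : K, y ^ 2 = c⁻¹ * (f i).eval x →
        A.eval (φ x) + φ y * B'.eval (φ x) = φ (MvPolynomial.eval s p) := by
      intro x y hxy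
      have hy' : (f i).eval x = y ^ 2 * c := by
        rw [hxy]
        field_simp
      have h3 : φ y ^ 2 = F.eval (φ x) := by rw [hFφ, ← hxy, map_pow]
      rw [← hmv (φ x) (φ y) h3, ← mv_mv1 ε I i hi s X t x y]
      have h4 := dir ε hY p hB hsY hc hRg hy'
      rw [← h4]
      have hne : ∀ k ∈ I, k ≠ i := fun k hk h => hi (h ▸ hk)
      have hco : ∀ k ∈ I, mv1 ε i s x y (Sum.inl k) = s (Sum.inl k) := fun k hk => by
        show Function.update (fun k => s (Sum.inl k)) i x k = s (Sum.inl k)
        simp [hne k hk]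
      refine ih _ (hY s hsY i x y hy') (fun k hk => ?_) X t fun k hk => ?_
      · rw [hco k hk]
        exact hsI k (Finset.mem_insert_of_mem hk)
      · rw [hco k hk]
        exact hXt k (Finset.mem_insert_of_mem hk)
    have hAe : ∀ x ∈ Ab (f i) c⁻¹,
        A.eval (φ x) = φ (MvPolynomial.eval s p) ∧ (F * B' ^ 2).eval (φ x) = 0 := by
      rintro x ⟨y, hxy⟩
      have h3 := hpt x y hxy
      have h4 := hpt x (-y) (by rw [neg_sq, hxy])
      rw [map_neg] at h4
      have h5 : 2 * (φ y * B'.eval (φ x)) = 0 := by linear_combination h3 - h4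
      have h6 : φ y * B'.eval (φ x) = 0 := (mul_eq_zero.1 h5).resolve_left h2L
      refine ⟨by rw [← h3, h6, add_zero], ?_⟩
      have h7 : φ y ^ 2 = F.eval (φ x) := by rw [hFφ, ← hxy, map_pow]
      rw [eval_mul, eval_pow, ← h7, ← mul_pow, h6]
      simp
    have himg : (φ '' Ab (f i) c⁻¹).Infinite :=
      hinf.image (FaithfulSMul.algebraMap_injective K L).injOn
    have hA0 : A = C (φ (MvPolynomial.eval s p)) := by
      rw [← sub_eq_zero]
      refine Polynomial.eq_zero_of_infinite_isRoot _ (himg.mono ?_)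
      rintro _ ⟨x, hx, rfl⟩
      show eval (φ x) _ = 0
      rw [eval_sub, eval_C, (hAe x hx).1, sub_self]
    have hF0 : F ≠ 0 := by
      rw [hF]
      refine mul_ne_zero (C_ne_zero.2 (inv_ne_zero hφc)) ?_
      exact (Polynomial.map_ne_zero_iff (FaithfulSMul.algebraMap_injective K L)).2 (hf0 i)
    have hB0 : B' = 0 := by
      have h3 : F * B' ^ 2 = 0 := by
        refine Polynomial.eq_zero_of_infinite_isRoot _ (himg.mono ?_)
        rintro _ ⟨x, hx, rfl⟩
        exact (hAe x hx).2
      rcases mul_eq_zero.1 h3 with h | h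
      · exact absurd h hF0
      · exact pow_eq_zero_iff (two_ne_zero) |>.1 h
    have h3 := hmv (X i) (t i) (by
      rw [hFe, hXt i (Finset.mem_insert_self i I), ← hcdef]
      field_simp)
    rw [Function.update_eq_self, Function.update_eq_self] at h3
    rw [h3, hA0, hB0]
    simp

/-- **Finiteness**: a polynomial function with values in `O` on a set of points of a cover which is
closed under moves has finitely many values. -/
theorem cover_fin [Finite ι] [Finite J] (h2 : (2 : K) ≠ 0) {O : Set K}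
    {f : ι → K[X]} (hf : ∀ i, Good O (f i)) (e : J → K) (ε : J → Finset ι)
    {Y : Set (ι ⊕ J → K)} (hYS : Y ⊆ Cover f e ε) (hY : Closed f ε Y)
    (p : MvPolynomial (ι ⊕ J) K) (hB : ∀ z ∈ Y, MvPolynomial.eval z p ∈ O) :
    ((fun z => MvPolynomial.eval z p) '' Y).Finite := by
  classical
  choose hf0 E hEf hE using hf
  set L := AlgebraicClosure K with hL
  set φ := algebraMap K L with hφ
  have hinj : Function.Injective φ := FaithfulSMul.algebraMap_injective K L
  set G : ι → Set L := fun i => φ '' (E i ∪ {x | (f i).IsRoot x} ∪ {0}) with hG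
  have hGf : ∀ i, (G i).Finite := fun i =>
    (((hEf i).union (finite_setOfPred_isRoot (hf0 i))).union (Set.finite_singleton 0)).image φ
  set T : Set (ι ⊕ J → L) := {z | (∀ i, z (Sum.inl i) ∈ G i) ∧
    ∀ j, z (Sum.inr j) ^ 2 = φ (e j) * ∏ i ∈ ε j, ((f i).map φ).eval (z (Sum.inl i))} with hT
  have hTf : T.Finite := by
    have h1 : {x : ι → L | ∀ i, x i ∈ G i}.Finite := Set.Finite.pi' hGf
    have h3 : T ⊆ ⋃ x ∈ {x : ι → L | ∀ i, x i ∈ G i}, (fun y : J → L => Sum.elim x y) ''
        {y : J → L | ∀ j, y j ∈ {u : L | u ^ 2 = φ (e j) *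
          ∏ i ∈ ε j, ((f i).map φ).eval (x i)}} := by
      intro z hz
      simp only [Set.mem_iUnion]
      refine ⟨fun i => z (Sum.inl i), hz.1, fun j => z (Sum.inr j), fun j => hz.2 j, ?_⟩
      exact Sum.elim_comp_inl_inr z
    refine (h1.biUnion fun x _ => Set.Finite.image _ (Set.Finite.pi' fun j => ?_)).subset h3
    have h4 : (Polynomial.X ^ 2 - C (φ (e j) * ∏ i ∈ ε j, ((f i).map φ).eval (x i)) : L[X]) ≠ 0 :=
      X_pow_sub_C_ne_zero (by norm_num) _
    refine (Polynomial.finite_setOfPred_isRoot h4).subset fun u hu => ?_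
    show eval u _ = 0
    rw [eval_sub, eval_pow, eval_X, eval_C]
    exact sub_eq_zero.2 hu
  have hsub : φ '' ((fun z => MvPolynomial.eval z p) '' Y) ⊆
      (fun z => MvPolynomial.eval z (MvPolynomial.map φ p)) '' T := by
    rintro _ ⟨_, ⟨s, hsY, rfl⟩, rfl⟩
    set I : Finset ι := (Set.toFinite {i | (f i).eval (s (Sum.inl i)) ≠ 0 ∧
      s (Sum.inl i) ∉ E i}).toFinset with hI
    have hmemI : ∀ i, i ∈ I ↔ (f i).eval (s (Sum.inl i)) ≠ 0 ∧ s (Sum.inl i) ∉ E i := by
      intro i
      rw [hI, Set.Finite.mem_toFinset]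
      rfl
    have ht : ∀ i, ∃ t : L, i ∈ I → ((f i).map φ).eval 0 =
        t ^ 2 * φ ((f i).eval (s (Sum.inl i))) := by
      intro i
      by_cases hi : i ∈ I
      · have hc := ((hmemI i).1 hi).1
        have hφc := (map_ne_zero φ).2 hc
        obtain ⟨t, ht⟩ := IsAlgClosed.exists_pow_nat_eq (n := 2)
          (((f i).map φ).eval 0 / φ ((f i).eval (s (Sum.inl i)))) (by norm_num)
        exact ⟨t, fun _ => by rw [ht, div_mul_cancel₀ _ hφc]⟩
      · exact ⟨0, fun h => absurd h hi⟩
    choose t ht using ht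
    refine ⟨mv ε I s (fun _ => 0) t, ⟨fun i => ?_, fun j => ?_⟩, ?_⟩
    · show (if i ∈ I then (0 : L) else φ (s (Sum.inl i))) ∈ G i
      by_cases hi : i ∈ I
      · rw [if_pos hi]
        exact ⟨0, Or.inr rfl, map_zero φ⟩
      · rw [if_neg hi]
        refine ⟨s (Sum.inl i), Or.inl ?_, rfl⟩
        have h5 : ¬ _ := fun h => hi ((hmemI i).2 h)
        by_cases h6 : s (Sum.inl i) ∈ E i
        · exact Or.inl h6
        · right
          by_contra h7
          exact h5 ⟨h7, h6⟩
    · show (φ (s (Sum.inr j)) * ∏ i ∈ ε j, if i ∈ I then t i else 1) ^ 2 = φ (e j) *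
        ∏ i ∈ ε j, ((f i).map φ).eval (if i ∈ I then (0 : L) else φ (s (Sum.inl i)))
      rw [mul_pow, ← map_pow, hYS hsY j, map_mul, map_prod, mul_assoc, ← Finset.prod_pow,
        ← Finset.prod_mul_distrib]
      congr 1
      refine Finset.prod_congr rfl fun i _ => ?_
      by_cases hi : i ∈ I
      · rw [if_pos hi, if_pos hi, ht i hi, mul_comm]
      · rw [if_neg hi, if_neg hi, one_pow, mul_one, map_ev]
    · exact claim h2 hf0 hE ε hY p hB I s hsY (fun i hi => (hmemI i).1 hi) _ _
        fun i hi => ht i hi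
  exact Set.Finite.of_finite_image ((hTf.image _).subset hsub) hinj.injOn

end main

end Pool.Agent.V7H58.EC
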