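import Pool.Agent.V7H58.EC.Unif

/-!
# All but finitely many points lie on twists with infinitely many points
-/

set_option autoImplicit false

namespace Pool.Agent.V7H58.EC

open Polynomial

section

variable {K : Type} [Field K] {v : AbsoluteValue K ℝ}

theorem na_eq (hna : NA v) {y z : K} (h : v z < v y) : v (y + z) = v y := by
  apply le_antisymm
  · exact (hna y z).trans (max_le le_rfl h.le)
  · have h1 := hna (y + z) (-z)
    rw [add_neg_cancel_right, map_neg_eq_map] at h1
    rcases le_max_iff.1 h1 with h2 | h2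
    · exact h2
    · exact absurd h2 (not_le.2 h)

theorem exists_big (hv : LC v) (M : ℝ) : ∃ x : K, M < v x := by
  obtain ⟨x, hx⟩ := hv.nt
  obtain ⟨n, hn⟩ := pow_unbounded_of_one_lt M hx
  exact ⟨x ^ n, by rwa [map_pow]⟩

theorem v_three (hna : NA v) (h2 : v 2 < 1) : v 3 = 1 := by
  have : (3 : K) = 1 + 2 := by norm_num
  rw [this, na_eq hna (by rwa [map_one]), map_one]

/-- for large `x` the value of the cubic polynomial is large -/
theorem cub_big (hna : NA v) {a : K} (ha : a ≠ 0) (b d g : K) :
    ∃ M : ℝ, 1 ≤ M ∧ ∀ x : K, M < v x → v (cub a b d g x) = v a * v x ^ 3 := by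
  have va : 0 < v a := v.pos ha
  refine ⟨1 + (v b + v d + v g) / v a, ?_, fun x hx => ?_⟩
  · have := v.nonneg b
    have := v.nonneg d
    have := v.nonneg g
    have : 0 ≤ (v b + v d + v g) / v a := by positivity
    linarith
  have n1 := v.nonneg b
  have n2 := v.nonneg d
  have n3 := v.nonneg g
  have hx1 : 1 < v x := by
    have : 0 ≤ (v b + v d + v g) / v a := by positivity
    linarith
  have hx2 : v b + v d + v g < v a * v x := by
    have h1 : (v b + v d + v g) / v a < v x := by linarith
    rw [div_lt_iff₀ va] at h1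
    linarith
  have hx0 : 0 < v x := by linarith
  have e : cub a b d g x = a * x ^ 3 + (b * x ^ 2 + d * x + g) := by
    unfold cub
    ring
  have h3 : v (a * x ^ 3) = v a * v x ^ 3 := by rw [map_mul, map_pow]
  rw [e, na_eq hna, h3]
  rw [h3]
  have h4 : v (b * x ^ 2 + d * x + g) ≤ (v b + v d + v g) * v x ^ 2 := by
    refine (v.add_le _ _).trans ?_
    have h5 := v.add_le (b * x ^ 2) (d * x)
    rw [map_mul, map_pow, map_mul] at h5
    have h6 : v d * v x ≤ v d * v x ^ 2 := by
      refine mul_le_mul_of_nonneg_left ?_ n2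
      nlinarith
    have h7 : v g ≤ v g * v x ^ 2 := by
      have : (1 : ℝ) ≤ v x ^ 2 := by nlinarith
      nlinarith
    nlinarith
  have h8 : (v b + v d + v g) * v x ^ 2 < v a * v x * v x ^ 2 :=
    mul_lt_mul_of_pos_right hx2 (by positivity)
  calc v (b * x ^ 2 + d * x + g) ≤ (v b + v d + v g) * v x ^ 2 := h4
    _ < v a * v x * v x ^ 2 := h8
    _ = v a * v x ^ 3 := by ring

theorem dcub_big (hna : NA v) {a : K} (ha : a ≠ 0) (h2 : v 2 < 1) (b d : K) :
    ∃ M : ℝ, 1 ≤ M ∧ ∀ x : K, M < v x → v (dcub a b d x) = v a * v x ^ 2 := by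
  have va : 0 < v a := v.pos ha
  have n0 := v.nonneg 2
  have n1 := v.nonneg b
  have n2 := v.nonneg d
  refine ⟨1 + (v 2 * v b + v d) / v a, ?_, fun x hx => ?_⟩
  · have : 0 ≤ (v 2 * v b + v d) / v a := by positivity
    linarith
  have hx1 : 1 < v x := by
    have : 0 ≤ (v 2 * v b + v d) / v a := by positivity
    linarith
  have hx2 : v 2 * v b + v d < v a * v x := by
    have h1 : (v 2 * v b + v d) / v a < v x := by linarith
    rw [div_lt_iff₀ va] at h1
    linarith
  have hx0 : 0 < v x := by linarith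
  have e : dcub a b d x = 3 * a * x ^ 2 + (2 * b * x + d) := by
    unfold dcub
    ring
  have h3 : v (3 * a * x ^ 2) = v a * v x ^ 2 := by
    rw [map_mul, map_mul, map_pow, v_three hna h2, one_mul]
  rw [e, na_eq hna, h3]
  rw [h3]
  have h4 : v (2 * b * x + d) ≤ (v 2 * v b + v d) * v x := by
    refine (v.add_le _ _).trans ?_
    rw [map_mul, map_mul]
    have h7 : v d ≤ v d * v x := by nlinarith
    nlinarith
  have h8 : (v 2 * v b + v d) * v x < v a * v x * v x :=
    mul_lt_mul_of_pos_right hx2 hx0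
  calc v (2 * b * x + d) ≤ (v 2 * v b + v d) * v x := h4
    _ < v a * v x * v x := h8
    _ = v a * v x ^ 2 := by ring

/-- doubling increases large absolute values at a place above `2` -/
theorem dbl_big (hna : NA v) {a : K} (ha : a ≠ 0) (h20 : (2 : K) ≠ 0) (h2 : v 2 < 1) (b d g : K) :
    ∃ M : ℝ, 1 ≤ M ∧ ∀ x : K, M < v x → cub a b d g x ≠ 0 ∧ v x < v (dbl a b d g x) := by
  obtain ⟨M₁, h11, h1⟩ := cub_big hna ha b d g
  obtain ⟨M₂, h21, h3⟩ := dcub_big hna ha h2 b d
  have va : 0 < v a := v.pos ha
  have v2 : 0 < v 2 := v.pos h20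
  have h4 : (4 : K) ≠ 0 := by
    have : (4 : K) = 2 * 2 := by norm_num
    rw [this]
    exact mul_ne_zero h20 h20
  have v4 : v 4 = v 2 * v 2 := by
    have : (4 : K) = 2 * 2 := by norm_num
    rw [this, map_mul]
  have v4' : v 4 < 1 := by
    rw [v4]
    nlinarith
  refine ⟨max (max M₁ M₂) (v (b / a)), (h11.trans (le_max_left _ _)).trans (le_max_left _ _),
    fun x hx => ?_⟩
  have hx1 : M₁ < v x := ((le_max_left _ _).trans (le_max_left _ _)).trans_lt hx
  have hx2 : M₂ < v x := ((le_max_right _ _).trans (le_max_left _ _)).trans_lt hx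
  have hx3 : v (b / a) < v x := (le_max_right _ _).trans_lt hx
  have hx0 : 0 < v x := by linarith
  have hf := h1 x hx1
  have hd := h3 x hx2
  have hf0 : cub a b d g x ≠ 0 := by
    intro h
    rw [h, map_zero] at hf
    have : 0 < v a * v x ^ 3 := by positivity
    linarith
  refine ⟨hf0, ?_⟩
  have e : dbl a b d g x = dcub a b d x ^ 2 / (4 * cub a b d g x * a) + (-(b / a) + -(2 * x)) := by
    unfold dbl
    field_simp
    ring
  have e2 : v (dcub a b d x ^ 2 / (4 * cub a b d g x * a)) = v x / v 4 := by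
    rw [map_div₀, map_pow, map_mul, map_mul, hf, hd]
    have : v 4 ≠ 0 := (v.pos h4).ne'
    field_simp
  have v4p : 0 < v 4 := v.pos h4
  have e3 : v x < v x / v 4 := by
    rw [lt_div_iff₀ v4p]
    nlinarith
  have e4 : v (-(b / a) + -(2 * x)) < v x / v 4 := by
    refine (hna _ _).trans_lt (max_lt ?_ ?_)
    · rw [map_neg_eq_map]
      exact hx3.trans e3
    · rw [map_neg_eq_map, map_mul]
      have : v 2 * v x < v x := by nlinarith
      exact this.trans e3
  rw [e, na_eq hna (by rw [e2]; exact e4), e2]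
  exact e3

/-- the iterates of the doubling map -/
def it (a b d g x : K) (k : ℕ) : K := (dbl a b d g)^[k] x

theorem it_succ (a b d g x : K) (k : ℕ) : it a b d g x (k + 1) = dbl a b d g (it a b d g x k) := by
  unfold it
  rw [Function.iterate_succ_apply']

/-- numerators and denominators of the iterates -/
noncomputable def pq (a b d g : K) : ℕ → K[X] × K[X]
  | 0 => (X, 1)
  | k + 1 =>
    let P := (pq a b d g k).1
    let Q := (pq a b d g k).2
    (C (a ^ 2) * P ^ 4 - C (2 * a * d) * P ^ 2 * Q ^ 2 - C (8 * a * g) * P * Q ^ 3 +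
      C (d ^ 2 - 4 * b * g) * Q ^ 4,
     C (4 * a) * Q * (C a * P ^ 3 + C b * P ^ 2 * Q + C d * P * Q ^ 2 + C g * Q ^ 3))

theorem pq_step (a b d g x : K) (k : ℕ) (hQ : ((pq a b d g k).2).eval x ≠ 0)
    (ha : a ≠ 0) (h4 : (4 : K) ≠ 0)
    (hit : it a b d g x k = ((pq a b d g k).1).eval x / ((pq a b d g k).2).eval x) :
    ((pq a b d g (k + 1)).2).eval x =
        4 * a * ((pq a b d g k).2).eval x ^ 4 * cub a b d g (it a b d g x k) ∧
      (cub a b d g (it a b d g x k) ≠ 0 →
        it a b d g x (k + 1) = ((pq a b d g (k + 1)).1).eval x / ((pq a b d g (k + 1)).2).eval x) := by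
  set p := ((pq a b d g k).1).eval x with hp
  set q := ((pq a b d g k).2).eval x with hq
  have e1 : ((pq a b d g (k + 1)).2).eval x =
      4 * a * q * (a * p ^ 3 + b * p ^ 2 * q + d * p * q ^ 2 + g * q ^ 3) := by
    simp only [pq, eval_mul, eval_add, eval_pow, eval_C, ← hp, ← hq]
  have e2 : ((pq a b d g (k + 1)).1).eval x =
      a ^ 2 * p ^ 4 - 2 * a * d * p ^ 2 * q ^ 2 - 8 * a * g * p * q ^ 3 +
        (d ^ 2 - 4 * b * g) * q ^ 4 := by
    simp only [pq, eval_mul, eval_add, eval_sub, eval_pow, eval_C, ← hp, ← hq]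
  have e3 : q ^ 3 * cub a b d g (it a b d g x k) =
      a * p ^ 3 + b * p ^ 2 * q + d * p * q ^ 2 + g * q ^ 3 := by
    rw [hit, cub]
    field_simp
  have e4 : ((pq a b d g (k + 1)).2).eval x = 4 * a * q ^ 4 * cub a b d g (it a b d g x k) := by
    rw [e1, ← e3]
    ring
  refine ⟨e4, fun hf => ?_⟩
  rw [it_succ, e4, e2]
  have hq4 : q ^ 4 ≠ 0 := pow_ne_zero 4 hQ
  set y := it a b d g x k with hy
  have hpy : p = y * q := by
    rw [hit, div_mul_cancel₀ _ hQ]
  rw [eq_div_iff (mul_ne_zero (mul_ne_zero (mul_ne_zero h4 ha) hq4) hf)]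
  have e5 : dbl a b d g y * (4 * a * cub a b d g y) =
      dcub a b d y ^ 2 - 4 * b * cub a b d g y - 8 * a * y * cub a b d g y := by
    unfold dbl
    field_simp
    ring
  have e6 : dbl a b d g y * (4 * a * q ^ 4 * cub a b d g y) =
      q ^ 4 * (dbl a b d g y * (4 * a * cub a b d g y)) := by ring
  rw [e6, e5, hpy]
  unfold dcub cub
  ring

theorem pq_eval (a b d g x : K) (ha : a ≠ 0) (h4 : (4 : K) ≠ 0) (n : ℕ)
    (hn : ∀ k < n, cub a b d g (it a b d g x k) ≠ 0) :
    ((pq a b d g n).2).eval x ≠ 0 ∧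
      it a b d g x n = ((pq a b d g n).1).eval x / ((pq a b d g n).2).eval x := by
  induction n with
  | zero => simp [pq, it]
  | succ k ih =>
    obtain ⟨h1, h2⟩ := ih fun j hj => hn j (hj.trans (Nat.lt_succ_self k))
    have h3 := hn k (Nat.lt_succ_self k)
    obtain ⟨h5, h6⟩ := pq_step a b d g x k h1 ha h4 h2
    refine ⟨?_, h6 h3⟩
    rw [h5]
    exact mul_ne_zero (mul_ne_zero (mul_ne_zero h4 ha) (pow_ne_zero 4 h1)) h3

/-- the orbit of a large element -/
theorem orbit_big {a b d g : K} {M : ℝ}
    (hM : ∀ x : K, M < v x → cub a b d g x ≠ 0 ∧ v x < v (dbl a b d g x)) {x : K} (hx : M < v x)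
    (k : ℕ) : M < v (it a b d g x k) ∧ ∀ j < k, v (it a b d g x j) < v (it a b d g x k) := by
  induction k with
  | zero => exact ⟨by simpa [it] using hx, fun j hj => absurd hj (Nat.not_lt_zero j)⟩
  | succ k ih =>
    obtain ⟨h1, h2⟩ := ih
    have h3 := (hM _ h1).2
    rw [← it_succ] at h3
    refine ⟨h1.trans h3, fun j hj => ?_⟩
    rcases Nat.lt_succ_iff_lt_or_eq.1 hj with h4 | h4
    · exact (h2 j h4).trans h3
    · rw [h4]
      exact h3

theorem it_mem {a b d g κ x : K} (ha : a ≠ 0) (hκ : κ ≠ 0) (h2 : (2 : K) ≠ 0)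
    (hx : x ∈ SS a b d g κ) (n : ℕ) (hn : ∀ k < n, cub a b d g (it a b d g x k) ≠ 0) :
    it a b d g x n ∈ SS a b d g κ := by
  induction n with
  | zero => simpa [it] using hx
  | succ k ih =>
    rw [it_succ]
    exact dbl_mem ha hκ h2 (ih fun j hj => hn j (hj.trans (Nat.lt_succ_self k)))
      (hn k (Nat.lt_succ_self k))

/-- **T1**: outside a finite set, every abscissa of a point of a twist belongs to a twist with
infinitely many abscissae -/
theorem t_one (hv : LC v) (hna : NA v) (hv2 : v 2 < 1) {a b d g : K} (ha : a ≠ 0) (h2 : (2 : K) ≠ 0)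
    (hs : Sep a b d g) : ∃ E : Set K, E.Finite ∧ ∀ κ : K, κ ≠ 0 → ∀ x ∈ SS a b d g κ, x ∉ E →
      (SS a b d g κ).Infinite := by
  classical
  have h4 : (4 : K) ≠ 0 := by
    have : (4 : K) = 2 * 2 := by norm_num
    rw [this]
    exact mul_ne_zero h2 h2
  obtain ⟨M, hM1, hM⟩ := dbl_big hna ha h2 hv2 b d g
  obtain ⟨N, hN⟩ := unif hv ha h2 hs M
  -- a large element
  obtain ⟨z, hz⟩ := exists_big hv M
  have zo := orbit_big hM hz
  have zc : ∀ k, cub a b d g (it a b d g z k) ≠ 0 := fun k => (hM _ (zo k).1).1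
  have zp := fun n => pq_eval a b d g z ha h4 n fun k _ => zc k
  set P := fun k => (pq a b d g k).1 with hP
  set Q := fun k => (pq a b d g k).2 with hQ
  have hQ0 : ∀ k, Q k ≠ 0 := by
    intro k h
    apply (zp k).1
    show (Q k).eval z = 0
    rw [h, eval_zero]
  have hPQ : ∀ m n, m < n → P m * Q n - P n * Q m ≠ 0 := by
    intro m n hmn h
    have h5 : ((P m * Q n - P n * Q m)).eval z = 0 := by rw [h, eval_zero]
    rw [eval_sub, eval_mul, eval_mul, sub_eq_zero] at h5
    have h6 : it a b d g z m = it a b d g z n := by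
      rw [(zp m).2, (zp n).2, div_eq_div_iff (zp m).1 (zp n).1]
      exact h5
    have h7 := (zo n).2 m hmn
    rw [h6] at h7
    exact lt_irrefl _ h7
  set E : Set K := (⋃ k ∈ Finset.range (N + 2), {x | (Q k).IsRoot x}) ∪
    ⋃ m ∈ Finset.range (N + 2), ⋃ n ∈ Finset.range (N + 2),
      {x | m < n ∧ (P m * Q n - P n * Q m).IsRoot x} with hE
  refine ⟨E, ?_, fun κ hκ x hx hxE => ?_⟩
  · refine Set.Finite.union ?_ ?_
    · refine Set.Finite.biUnion (Finset.finite_toSet _) fun k _ => ?_
      exact Polynomial.finite_setOfPred_isRoot (hQ0 k)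
    · refine Set.Finite.biUnion (Finset.finite_toSet _) fun m _ => ?_
      refine Set.Finite.biUnion (Finset.finite_toSet _) fun n _ => ?_
      by_cases hmn : m < n
      · exact (Polynomial.finite_setOfPred_isRoot (hPQ m n hmn)).subset fun x hx => hx.2
      · convert Set.finite_empty (α := K)
        ext x
        simp [hmn]
  · intro hfin
    -- the abscissae are bounded
    have hbd : ∀ y ∈ SS a b d g κ, v y ≤ M := by
      intro y hy
      by_contra hcon
      push Not at hcon
      have yo := orbit_big hM hcon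
      have yc : ∀ k, cub a b d g (it a b d g y k) ≠ 0 := fun k => (hM _ (yo k).1).1
      have hmem : ∀ k, it a b d g y k ∈ SS a b d g κ := fun k =>
        it_mem ha hκ h2 hy k fun j _ => yc j
      have hinj : Function.Injective (it a b d g y) := by
        intro m n hmn
        rcases lt_trichotomy m n with h | h | h
        · have := (yo n).2 m h
          rw [hmn] at this
          exact absurd this (lt_irrefl _)
        · exact h
        · have := (yo m).2 n h
          rw [hmn] at this
          exact absurd this (lt_irrefl _)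
      exact Set.infinite_of_injective_forall_mem hinj hmem hfin
    -- the orbit of `x`
    have hQx : ∀ k, k ≤ N + 1 → (Q k).eval x ≠ 0 := by
      intro k hk h
      apply hxE
      left
      simp only [Set.mem_iUnion]
      exact ⟨k, Finset.mem_range.2 (by omega), h⟩
    have hc : ∀ k, k ≤ N → cub a b d g (it a b d g x k) ≠ 0 := by
      intro k
      induction k using Nat.strong_induction_on with
      | _ k ih =>
        intro hk h
        have h5 := pq_eval a b d g x ha h4 k fun j hj => ih j hj (by omega)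
        have h6 := (pq_step a b d g x k h5.1 ha h4 h5.2).1
        apply hQx (k + 1) (by omega)
        show ((pq a b d g (k + 1)).2).eval x = 0
        rw [h6, h, mul_zero]
    have hne : ∀ m n, m < n → n ≤ N → it a b d g x m ≠ it a b d g x n := by
      intro m n hmn hn h
      have h5 := pq_eval a b d g x ha h4 m fun j hj => hc j (by omega)
      have h6 := pq_eval a b d g x ha h4 n fun j hj => hc j (by omega)
      rw [h5.2, h6.2, div_eq_div_iff h5.1 h6.1] at h
      apply hxE
      right
      simp only [Set.mem_iUnion]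
      refine ⟨m, Finset.mem_range.2 (by omega), n, Finset.mem_range.2 (by omega), hmn, ?_⟩
      show (P m * Q n - P n * Q m).eval x = 0
      rw [eval_sub, eval_mul, eval_mul, sub_eq_zero]
      exact h
    have hinj : Set.InjOn (it a b d g x) (Finset.range (N + 1) : Set ℕ) := by
      intro m hm n hn hmn
      have hm' := Finset.mem_range.1 (Finset.mem_coe.1 hm)
      have hn' := Finset.mem_range.1 (Finset.mem_coe.1 hn)
      rcases lt_trichotomy m n with h | h | h
      · exact absurd hmn (hne m n h (by omega))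
      · exact h
      · exact absurd hmn.symm (hne n m h (by omega))
    have hcard := hN κ hκ hbd ((Finset.range (N + 1)).image (it a b d g x)) (by
      intro y hy
      obtain ⟨k, hk, rfl⟩ := Finset.mem_image.1 hy
      have hk' := Finset.mem_range.1 hk
      exact ⟨it_mem ha hκ h2 hx k fun j hj => hc j (by omega), hc k (by omega)⟩)
    rw [Finset.card_image_of_injOn hinj, Finset.card_range] at hcard
    omega

/-- the cubic polynomial has finitely many roots -/
theorem cub_roots {a b d g : K} (ha : a ≠ 0) : {x | cub a b d g x = 0}.Finite := by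
  have h : (C a * X ^ 3 + C b * X ^ 2 + C d * X + C g : K[X]) ≠ 0 := by
    intro h
    have := congrArg (fun p => p.coeff 3) h
    simp at this
    exact ha this
  refine (Polynomial.finite_setOfPred_isRoot h).subset fun x hx => ?_
  show eval x (C a * X ^ 3 + C b * X ^ 2 + C d * X + C g : K[X]) = 0
  simp only [eval_add, eval_mul, eval_C, eval_pow, eval_X]
  exact hx

/-- **T2**: a twist with infinitely many points has points with arbitrarily large abscissae, at
every place -/
theorem t_two (hv : LC v) {a b d g κ : K} (ha : a ≠ 0) (h2 : (2 : K) ≠ 0) (hs : Sep a b d g)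
    (hκ : κ ≠ 0) (hinf : (SS a b d g κ).Infinite) (M : ℝ) :
    ∃ x ∈ SS a b d g κ, M < v x := by
  by_contra hcon
  push Not at hcon
  obtain ⟨N, hN⟩ := unif hv ha h2 hs M
  have h1 : (SS a b d g κ \ {x | cub a b d g x = 0}).Infinite := hinf.sdiff (cub_roots ha)
  obtain ⟨s, hs1, hs2⟩ := h1.exists_subset_card_eq (N + 1)
  have h3 := hN κ hκ hcon s fun x hx => ⟨(hs1 hx).1, (hs1 hx).2⟩
  omega

end

end Pool.Agent.V7H58.EC
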