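import Pool.Agent.V7H58.EC.Dbl
import Pool.Agent.TH783.CE.Flat

/-!
# Families of double covers of the line
-/

set_option autoImplicit false

namespace Pool.Agent.V7H58.EC

open Polynomial

section growth

variable {K : Type} [Field K] {v : AbsoluteValue K ℝ}

/-- nonconstant polynomials are large at large elements -/
theorem grow (v : AbsoluteValue K ℝ) (n : ℕ) : ∀ q : K[X], q.natDegree = n + 1 → ∀ B : ℝ,
    ∃ M : ℝ, ∀ x : K, M < v x → B < v (q.eval x) := by
  have low : ∀ c y x : K, v c * v x - v y ≤ v (c * x + y) := by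
    intro c y x
    have h1 := v.add_le (c * x + y) (-y)
    rw [add_neg_cancel_right, map_neg_eq_map, map_mul] at h1
    linarith
  induction n with
  | zero =>
    intro q hq B
    have h1 : q = C (q.coeff 1) * X + C (q.coeff 0) :=
      eq_X_add_C_of_natDegree_le_one (by omega)
    have hc : q.coeff 1 ≠ 0 := by
      have h2 : q.leadingCoeff ≠ 0 := by
        rw [leadingCoeff_ne_zero]
        rintro rfl
        simp at hq
      rwa [leadingCoeff, hq] at h2
    have hc0 : 0 < v (q.coeff 1) := v.pos hc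
    refine ⟨(B + v (q.coeff 0)) / v (q.coeff 1), fun x hx => ?_⟩
    rw [h1, eval_add, eval_mul, eval_C, eval_X, eval_C]
    rw [div_lt_iff₀ hc0] at hx
    have h3 := low (q.coeff 1) (q.coeff 0) x
    linarith
  | succ n ih =>
    intro q hq B
    have h1 := divX_mul_X_add q
    have h2 : (divX q).natDegree = n + 1 := by
      rw [natDegree_divX_eq_natDegree_tsub_one, hq]
      rfl
    obtain ⟨M, hM⟩ := ih _ h2 1
    refine ⟨max M (max (B + v (q.coeff 0)) 0), fun x hx => ?_⟩
    have h3 := hM x ((le_max_left _ _).trans_lt hx)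
    have h4 : B + v (q.coeff 0) < v x :=
      ((le_max_left _ _).trans (le_max_right _ _)).trans_lt hx
    have h5 : 0 < v x := ((le_max_right _ _).trans (le_max_right _ _)).trans_lt hx
    have h6 : q.eval x = (divX q).eval x * x + q.coeff 0 := by
      conv_lhs => rw [← h1]
      simp
    have h7 := low ((divX q).eval x) (q.coeff 0) x
    rw [h6]
    nlinarith

/-- a polynomial which is bounded at arbitrarily large elements is constant -/
theorem const_of_bdd {q : K[X]} {B : ℝ} (h : ∀ M : ℝ, ∃ x : K, M < v x ∧ v (q.eval x) ≤ B) :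
    q = C (q.coeff 0) := by
  by_contra hcon
  have h1 : q.natDegree ≠ 0 := fun h2 => hcon (eq_C_of_natDegree_eq_zero h2)
  obtain ⟨M, hM⟩ := grow v (q.natDegree - 1) q (by omega) B
  obtain ⟨x, hx, hx'⟩ := h M
  exact absurd (hM x hx) (not_lt.2 hx')

end growth

section good

variable {K : Type} [Field K]

/-- the abscissae of the points of `w ^ 2 = κ f(x)` -/
def Ab (f : K[X]) (κ : K) : Set K := {x | ∃ w, w ^ 2 = κ * f.eval x}

/-- regular functions `A(x) + w B(x)` on `w ^ 2 = κ f(x)` with values in `O` are constant -/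
def Rg (O : Set K) (f : K[X]) (κ : K) : Prop :=
  ∀ A B : K[X], (∀ x w : K, w ^ 2 = κ * f.eval x → A.eval x + w * B.eval x ∈ O) →
    A = C (A.coeff 0) ∧ B = 0

/-- all but finitely many `x` are only abscissae of points of twists `w ^ 2 = κ f(x)` which have
infinitely many points and on which the regular functions with values in `O` are constant -/
def Good (O : Set K) (f : K[X]) : Prop :=
  f ≠ 0 ∧ ∃ E : Set K, E.Finite ∧ ∀ κ : K, κ ≠ 0 → ∀ x ∈ Ab f κ, x ∉ E →
    (Ab f κ).Infinite ∧ Rg O f κ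

/-- `O` is bounded at `v` -/
def Bdd (v : AbsoluteValue K ℝ) (O : Set K) : Prop := ∃ B : ℝ, ∀ x ∈ O, v x ≤ B

variable {v : AbsoluteValue K ℝ}

theorem rg_of_unbdd (h2 : (2 : K) ≠ 0) {O : Set K} (hO : Bdd v O) {f : K[X]} {κ : K}
    (hκ : κ ≠ 0) (hf : f.natDegree ≠ 0) (hu : ∀ M : ℝ, ∃ x ∈ Ab f κ, M < v x) : Rg O f κ := by
  obtain ⟨B, hB⟩ := hO
  intro A B' hAB
  have v2 : 0 < v 2 := v.pos h2
  have hbd : ∀ x y : K, y ^ 2 = κ * f.eval x → v (A.eval x + y * B'.eval x) ≤ B :=
    fun x y h => hB _ (hAB x y h)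
  constructor
  · refine const_of_bdd (v := v) (B := (B + B) / v 2) fun M => ?_
    obtain ⟨x, ⟨y, hxy⟩, hx⟩ := hu M
    refine ⟨x, hx, ?_⟩
    have h3 := hbd x y hxy
    have h4 := hbd x (-y) (by rw [neg_sq, hxy])
    rw [le_div_iff₀ v2, mul_comm, ← map_mul]
    have e : 2 * A.eval x = (A.eval x + y * B'.eval x) + (A.eval x + -y * B'.eval x) := by ring
    rw [e]
    exact (v.add_le _ _).trans (add_le_add h3 h4)
  · have h5 : C κ * f * B' ^ 2 = C ((C κ * f * B' ^ 2).coeff 0) := by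
      refine const_of_bdd (v := v) (B := ((B + B) / v 2) ^ 2) fun M => ?_
      obtain ⟨x, ⟨y, hxy⟩, hx⟩ := hu M
      refine ⟨x, hx, ?_⟩
      have h3 := hbd x y hxy
      have h4 := hbd x (-y) (by rw [neg_sq, hxy])
      have h6 : v (y * B'.eval x) ≤ (B + B) / v 2 := by
        rw [le_div_iff₀ v2, mul_comm, ← map_mul]
        have e : 2 * (y * B'.eval x) =
            (A.eval x + y * B'.eval x) + -(A.eval x + -y * B'.eval x) := by ring
        rw [e]
        refine (v.add_le _ _).trans (add_le_add h3 ?_)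
        rw [map_neg_eq_map]
        exact h4
      rw [eval_mul, eval_mul, eval_C, eval_pow, ← hxy, ← mul_pow, map_pow]
      exact pow_le_pow_left₀ (v.nonneg _) h6 2
    by_contra hne
    have h6 : (C κ * f * B' ^ 2).natDegree = 0 := by
      rw [h5]
      exact natDegree_C _
    have hf0 : f ≠ 0 := by
      rintro rfl
      simp at hf
    rw [mul_assoc, natDegree_C_mul hκ, natDegree_mul hf0 (pow_ne_zero 2 hne)] at h6
    omega

theorem infinite_of_unbdd {f : K[X]} {κ : K} (hu : ∀ M : ℝ, ∃ x ∈ Ab f κ, M < v x) :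
    (Ab f κ).Infinite := by
  intro hfin
  obtain ⟨M, hM⟩ := (hfin.image v).bddAbove
  obtain ⟨x, hx, hx'⟩ := hu M
  exact absurd (hM ⟨x, hx, rfl⟩) (not_le.2 hx')

/-- separable cubic polynomials -/
theorem good_cubic (hv : LC v) {w : AbsoluteValue K ℝ} (hw : LC w) (hwn : NA w) (hw2 : w 2 < 1)
    (h2 : (2 : K) ≠ 0) {O : Set K} (hO : Bdd v O) {f : K[X]} (hf : f.natDegree = 3)
    (hs : f.Separable) : Good O f := by
  have e1 : ∀ x, f.eval x = cub (f.coeff 3) (f.coeff 2) (f.coeff 1) (f.coeff 0) x := by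
    intro x
    rw [eval_eq_sum_range, hf]
    simp [Finset.sum_range_succ, cub]
    ring
  have e2 : ∀ x, (derivative f).eval x = dcub (f.coeff 3) (f.coeff 2) (f.coeff 1) x := by
    intro x
    have h3 : (derivative f).natDegree < 3 := by
      rw [← hf]
      exact natDegree_derivative_lt (by omega)
    rw [eval_eq_sum_range' h3]
    simp [Finset.sum_range_succ, dcub, coeff_derivative]
    ring
  have ha : f.coeff 3 ≠ 0 := by
    have h3 : f.leadingCoeff ≠ 0 := by
      rw [leadingCoeff_ne_zero]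
      rintro rfl
      simp at hf
    rwa [leadingCoeff, hf] at h3
  have hsep : Sep (f.coeff 3) (f.coeff 2) (f.coeff 1) (f.coeff 0) := by
    obtain ⟨u, t, hut⟩ := hs
    refine ⟨u, t, fun x => ?_⟩
    rw [← e1, ← e2]
    have := congrArg (eval x) hut
    simpa using this
  have hAb : ∀ κ, Ab f κ = SS (f.coeff 3) (f.coeff 2) (f.coeff 1) (f.coeff 0) κ := by
    intro κ
    ext x
    show (∃ w, w ^ 2 = κ * f.eval x) ↔ _
    rw [e1]
    rfl
  obtain ⟨E, hE, h⟩ := t_one hw hwn hw2 ha h2 hsep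
  refine ⟨?_, E, hE, fun κ hκ x hx hxE => ?_⟩
  · rintro rfl
    simp at hf
  · rw [hAb] at hx
    have hinf := h κ hκ x hx hxE
    refine ⟨by rw [hAb]; exact hinf, rg_of_unbdd h2 hO hκ (by omega) fun M => ?_⟩
    rw [hAb]
    exact t_two hv ha h2 hsep hκ hinf M

/-- linear polynomials -/
theorem good_linear (hv : LC v) (h2 : (2 : K) ≠ 0) {O : Set K} (hO : Bdd v O) {f : K[X]}
    (hf : f.natDegree = 1) : Good O f := by
  have hc : f.coeff 1 ≠ 0 := by
    have h3 : f.leadingCoeff ≠ 0 := by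
      rw [leadingCoeff_ne_zero]
      rintro rfl
      simp at hf
    rwa [leadingCoeff, hf] at h3
  have e1 : ∀ x, f.eval x = f.coeff 1 * x + f.coeff 0 := by
    intro x
    conv_lhs => rw [eq_X_add_C_of_natDegree_le_one (le_of_eq hf)]
    simp
  have hu : ∀ κ : K, κ ≠ 0 → ∀ M : ℝ, ∃ x ∈ Ab f κ, M < v x := by
    intro κ hκ M
    set g : K[X] := C (1 / (κ * f.coeff 1)) * X ^ 2 - C (f.coeff 0 / f.coeff 1) with hg
    have hgd : g.natDegree = 1 + 1 := by
      rw [hg]
      have h3 : (C (1 / (κ * f.coeff 1)) * X ^ 2 : K[X]).natDegree = 2 :=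
        natDegree_C_mul_X_pow _ _ (by
          rw [one_div]
          exact inv_ne_zero (mul_ne_zero hκ hc))
      rw [natDegree_sub_C, h3]
    obtain ⟨M', hM'⟩ := grow v 1 g hgd M
    obtain ⟨y, hy⟩ := exists_big hv M'
    refine ⟨g.eval y, ⟨y, ?_⟩, hM' y hy⟩
    rw [e1, hg]
    simp only [eval_sub, eval_mul, eval_C, eval_pow, eval_X]
    field_simp
    ring
  refine ⟨?_, ∅, Set.finite_empty, fun κ hκ x _ _ => ?_⟩
  · rintro rfl
    simp at hf
  · exact ⟨infinite_of_unbdd (hu κ hκ), rg_of_unbdd h2 hO hκ (by omega) (hu κ hκ)⟩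

/-- multiples of squares of nonconstant polynomials -/
theorem good_square (hv : LC v) (h2 : (2 : K) ≠ 0) {O : Set K} (hO : Bdd v O) {q : K[X]}
    (hq : q.natDegree ≠ 0) {c : K} (hc : c ≠ 0) : Good O (q ^ 2 * C c) := by
  have hq0 : q ≠ 0 := by
    rintro rfl
    simp at hq
  refine ⟨mul_ne_zero (pow_ne_zero 2 hq0) (C_ne_zero.2 hc), {x | q.IsRoot x},
    finite_setOfPred_isRoot hq0, fun κ hκ x hx hxE => ?_⟩
  obtain ⟨w, hw⟩ := hx
  have hqx : q.eval x ≠ 0 := hxE
  have hu : ∀ M : ℝ, ∃ y ∈ Ab (q ^ 2 * C c) κ, M < v y := by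
    intro M
    obtain ⟨y, hy⟩ := exists_big hv M
    refine ⟨y, ⟨w / q.eval x * q.eval y, ?_⟩, hy⟩
    rw [mul_pow, div_pow, hw]
    simp only [eval_mul, eval_pow, eval_C]
    field_simp
  refine ⟨infinite_of_unbdd hu, rg_of_unbdd h2 hO hκ ?_ hu⟩
  rw [natDegree_mul (pow_ne_zero 2 hq0) (C_ne_zero.2 hc), natDegree_pow, natDegree_C]
  omega

/-- square factors -/
theorem good_mul {O : Set K} {q h : K[X]} (hq : q ≠ 0) (hh : Good O h) : Good O (q ^ 2 * h) := by
  obtain ⟨h0, E, hE, H⟩ := hh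
  refine ⟨mul_ne_zero (pow_ne_zero 2 hq) h0, E ∪ {x | q.IsRoot x},
    hE.union (finite_setOfPred_isRoot hq), fun κ hκ x hx hxE => ?_⟩
  have hxE1 : x ∉ E := fun h => hxE (Or.inl h)
  have hqx : q.eval x ≠ 0 := fun h => hxE (Or.inr h)
  have hx' : x ∈ Ab h κ := by
    obtain ⟨w, hw⟩ := hx
    refine ⟨w / q.eval x, ?_⟩
    rw [div_pow, hw, eval_mul, eval_pow]
    field_simp
  obtain ⟨h3, h4⟩ := H κ hκ x hx' hxE1
  have hsub : Ab h κ ⊆ Ab (q ^ 2 * h) κ := by
    rintro y ⟨w, hw⟩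
    refine ⟨w * q.eval y, ?_⟩
    rw [mul_pow, hw, eval_mul, eval_pow]
    ring
  refine ⟨h3.mono hsub, fun A B hAB => ?_⟩
  obtain ⟨h5, h6⟩ := h4 A (q * B) fun y w hw => by
    have h7 := hAB y (w * q.eval y) (by
      rw [mul_pow, hw, eval_mul, eval_pow]
      ring)
    rw [eval_mul, ← mul_assoc]
    exact h7
  exact ⟨h5, (mul_eq_zero.1 h6).resolve_left hq⟩

end good

end Pool.Agent.V7H58.EC
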