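import Pool.Agent.V7H58.EC.Good

/-!
# Quadratic polynomials
-/

set_option autoImplicit false

namespace Pool.Agent.V7H58.EC

open Polynomial

section

variable {K : Type} [Field K]

/-- rational functions with a given denominator -/
def RF (D : K[X]) (h : K → K) : Prop :=
  ∃ (n : ℕ) (P : K[X]), ∀ s, D.eval s ≠ 0 → h s = P.eval s / D.eval s ^ n

theorem RF.poly (D P : K[X]) : RF D fun s => P.eval s :=
  ⟨0, P, fun s _ => by simp⟩

theorem RF.add {D : K[X]} {h k : K → K} (hh : RF D h) (hk : RF D k) : RF D fun s => h s + k s := by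
  obtain ⟨n, P, hP⟩ := hh
  obtain ⟨m, Q, hQ⟩ := hk
  refine ⟨n + m, P * D ^ m + Q * D ^ n, fun s hs => ?_⟩
  show h s + k s = _
  rw [hP s hs, hQ s hs]
  simp only [eval_add, eval_mul, eval_pow]
  rw [pow_add]
  field_simp

theorem RF.mul {D : K[X]} {h k : K → K} (hh : RF D h) (hk : RF D k) : RF D fun s => h s * k s := by
  obtain ⟨n, P, hP⟩ := hh
  obtain ⟨m, Q, hQ⟩ := hk
  refine ⟨n + m, P * Q, fun s hs => ?_⟩
  show h s * k s = _
  rw [hP s hs, hQ s hs]
  simp only [eval_mul]
  rw [pow_add]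
  field_simp

theorem RF.comp {D : K[X]} {h : K → K} (hh : RF D h) (A : K[X]) : RF D fun s => A.eval (h s) := by
  induction A using Polynomial.induction_on' with
  | add p q hp hq =>
    have := hp.add hq
    simpa only [eval_add] using this
  | monomial n c =>
    induction n with
    | zero =>
      have h1 := RF.poly D (C c)
      simpa using h1
    | succ n ih =>
      have h1 := ih.mul hh
      refine Eq.mp (congrArg (RF D) (funext fun s => ?_)) h1
      simp only [eval_monomial, pow_succ]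
      ring

theorem RF.const {D : K[X]} {h : K → K} (hh : RF D h) [CharZero K] {O : Set K}
    (hO : Pool.Agent.TH783.CE.Flat O) (hD : D ≠ 0) (hv : ∀ s, D.eval s ≠ 0 → h s ∈ O) :
    ∃ c, ∀ s, D.eval s ≠ 0 → h s = c := by
  obtain ⟨n, P, hP⟩ := hh
  obtain ⟨c, hc⟩ := hO (D ^ (n + 1)) (P * D) (pow_ne_zero _ hD) fun s hs => by
    rw [eval_pow] at hs ⊢
    have h0 : D.eval s ≠ 0 := fun h => hs (by rw [h, zero_pow (Nat.succ_ne_zero n)])
    have e : (P * D).eval s / D.eval s ^ (n + 1) = P.eval s / D.eval s ^ n := by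
      rw [eval_mul, pow_succ]
      field_simp
    rw [e, ← hP s h0]
    exact hv s h0
  refine ⟨c, fun s hs => ?_⟩
  have e := congrArg (eval s) hc
  rw [eval_mul, eval_mul, eval_C, eval_pow, pow_succ, ← mul_assoc] at e
  rw [hP s hs, mul_right_cancel₀ hs e]
  field_simp

/-- separable quadratic polynomials, for flat `O` -/
theorem good_quadratic [CharZero K] {O : Set K} (hO : Pool.Agent.TH783.CE.Flat O) {f : K[X]}
    (hf : f.natDegree = 2) : Good O f := by
  have h2 : (2 : K) ≠ 0 := two_ne_zero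
  set a := f.coeff 2 with ha'
  set b := f.coeff 1 with hb'
  set c := f.coeff 0 with hc'
  have ha : a ≠ 0 := by
    have h3 : f.leadingCoeff ≠ 0 := by
      rw [leadingCoeff_ne_zero]
      rintro rfl
      simp at hf
    rwa [leadingCoeff, hf] at h3
  have e1 : ∀ x, f.eval x = a * x ^ 2 + b * x + c := by
    intro x
    rw [eval_eq_sum_range, hf]
    simp [Finset.sum_range_succ]
    ring
  have hf0 : f ≠ 0 := by
    rintro rfl
    simp at hf
  refine ⟨hf0, {x | f.IsRoot x}, finite_setOfPred_isRoot hf0, fun κ hκ x₀ hx hxE => ?_⟩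
  obtain ⟨w₀, hw⟩ := hx
  have hfx : f.eval x₀ ≠ 0 := hxE
  have hw0 : w₀ ≠ 0 := by
    rintro rfl
    have h3 : κ * f.eval x₀ = 0 := by
      rw [← hw]
      ring
    rcases mul_eq_zero.1 h3 with h | h
    · exact hκ h
    · exact hfx h
  set f' := 2 * a * x₀ + b with hf'
  set D : K[X] := X ^ 2 - C (κ * a) with hD
  set N : K[X] := C (κ * f') - C (2 * w₀) * X with hN
  have hD0 : D ≠ 0 := X_pow_sub_C_ne_zero (by norm_num) _
  have hDe : ∀ s, D.eval s = s ^ 2 - κ * a := fun s => by simp [hD]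
  have hNe : ∀ s, N.eval s = κ * f' - 2 * w₀ * s := fun s => by simp [hN]
  have hlam : RF D fun s => N.eval s / D.eval s := ⟨1, N, fun s _ => by rw [pow_one]⟩
  set xs : K → K := fun s => x₀ + N.eval s / D.eval s with hxs
  set ws : K → K := fun s => w₀ + s * (N.eval s / D.eval s) with hws
  have rx : RF D xs := by
    have h3 := (RF.poly D (C x₀)).add hlam
    simpa using h3
  have rw' : RF D ws := by
    have h3 := (RF.poly D (C w₀)).add ((RF.poly D X).mul hlam)
    simpa using h3
  have hpt : ∀ s, D.eval s ≠ 0 → ws s ^ 2 = κ * f.eval (xs s) := by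
    intro s hs
    have h3 : N.eval s / D.eval s * (s ^ 2 - κ * a) = κ * f' - 2 * w₀ * s := by
      rw [← hDe, div_mul_cancel₀ _ hs, hNe]
    set l := N.eval s / D.eval s with hl
    show (w₀ + s * l) ^ 2 = κ * f.eval (x₀ + l)
    rw [e1] at hw ⊢
    linear_combination hw + l * h3
  -- infinitely many abscissae
  have hDinf : {s : K | D.eval s ≠ 0}.Infinite := by
    have h3 : {s : K | D.eval s ≠ 0} = {s | D.IsRoot s}ᶜ := by
      ext s
      rfl
    rw [h3]
    exact (finite_setOfPred_isRoot hD0).infinite_compl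
  have hxinf : (xs '' {s : K | D.eval s ≠ 0}).Infinite := by
    intro hfin
    obtain ⟨l, hl⟩ : ∃ y, {s : K | D.eval s ≠ 0 ∧ xs s = y}.Infinite := by
      by_contra hcon
      push Not at hcon
      apply hDinf
      refine (hfin.biUnion fun y _ => hcon y).subset fun s hs => ?_
      simp only [Set.mem_iUnion]
      exact ⟨xs s, ⟨s, hs, rfl⟩, hs, rfl⟩
    have h3 : N - C (l - x₀) * D = 0 := by
      refine eq_zero_of_infinite_isRoot _ (hl.mono fun s hs => ?_)
      have h4 : N.eval s / D.eval s = l - x₀ := by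
        rw [← hs.2]
        show _ = x₀ + N.eval s / D.eval s - x₀
        ring
      show eval s _ = 0
      rw [eval_sub, eval_mul, eval_C, ← h4, div_mul_cancel₀ _ hs.1, sub_self]
    have h4 := congrArg (eval 1) h3
    have h5 := congrArg (eval (-1)) h3
    rw [eval_sub, eval_mul, eval_C, hNe, hDe, eval_zero] at h4 h5
    have h6 : 4 * w₀ = 0 := by linear_combination h5 - h4
    rcases mul_eq_zero.1 h6 with h | h
    · exact absurd h (by norm_num)
    · exact hw0 h
  have hsub : xs '' {s : K | D.eval s ≠ 0} ⊆ Ab f κ := by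
    rintro _ ⟨s, hs, rfl⟩
    exact ⟨ws s, hpt s hs⟩
  refine ⟨hxinf.mono hsub, fun A B hAB => ?_⟩
  obtain ⟨c₁, h3⟩ := ((rx.comp A).add (rw'.mul (rx.comp B))).const hO hD0
    fun s hs => hAB _ _ (hpt s hs)
  have rn : RF D fun s => -ws s := by
    have h4 := (RF.poly D (C (-1))).mul rw'
    simpa using h4
  obtain ⟨c₂, h4⟩ := ((rx.comp A).add (rn.mul (rx.comp B))).const hO hD0
    fun s hs => hAB _ _ (by rw [neg_sq]; exact hpt s hs)
  have hA : A = C ((c₁ + c₂) / 2) := by
    rw [← sub_eq_zero]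
    refine eq_zero_of_infinite_isRoot _ (hxinf.mono ?_)
    rintro _ ⟨s, hs, rfl⟩
    show eval (xs s) _ = 0
    rw [eval_sub, eval_C, ← h3 s hs, ← h4 s hs]
    ring
  refine ⟨by rw [hA]; simp, ?_⟩
  have h5 : C κ * f * B ^ 2 - C (((c₁ - c₂) / 2) ^ 2) = 0 := by
    refine eq_zero_of_infinite_isRoot _ (hxinf.mono ?_)
    rintro _ ⟨s, hs, rfl⟩
    show eval (xs s) _ = 0
    rw [eval_sub, eval_C, eval_mul, eval_mul, eval_C, eval_pow, ← hpt s hs, ← h3 s hs, ← h4 s hs]
    ring
  by_contra hne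
  have h6 : (C κ * f * B ^ 2).natDegree = 0 := by
    rw [sub_eq_zero.1 h5]
    exact natDegree_C _
  rw [mul_assoc, natDegree_C_mul hκ, natDegree_mul hf0 (pow_ne_zero 2 hne)] at h6
  omega

end

end Pool.Agent.V7H58.EC
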