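import Pool.Agent.V7H58.EC.Abs

/-!
# Chords and tangents on the twists of a cubic curve
-/

set_option autoImplicit false

namespace Pool.Agent.V7H58.EC

section

variable {K : Type} [Field K]

/-- the cubic polynomial as a function -/
def cub (a b d g x : K) : K := a * x ^ 3 + b * x ^ 2 + d * x + g

/-- the derivative of the cubic polynomial -/
def dcub (a b d x : K) : K := 3 * a * x ^ 2 + 2 * b * x + d

/-- the abscissae of the points of `w ^ 2 = κ f(x)` -/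
def SS (a b d g κ : K) : Set K := {x | ∃ w, w ^ 2 = κ * cub a b d g x}

/-- the abscissa of the double of a point -/
def dbl (a b d g x : K) : K := (dcub a b d x ^ 2 / (4 * cub a b d g x) - b) / a - 2 * x

theorem third {a b d g κ x₁ x₂ w₁ w₂ : K} (ha : a ≠ 0) (hκ : κ ≠ 0) (hx : x₁ ≠ x₂)
    (h1 : w₁ ^ 2 = κ * cub a b d g x₁) (h2 : w₂ ^ 2 = κ * cub a b d g x₂) :
    ((((w₁ - w₂) / (x₁ - x₂)) ^ 2 / κ - b) / a - x₁ - x₂) ∈ SS a b d g κ := by
  set μ := (w₁ - w₂) / (x₁ - x₂) with hμ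
  have hx' : x₁ - x₂ ≠ 0 := sub_ne_zero.2 hx
  have hw : w₂ = w₁ - μ * (x₁ - x₂) := by
    rw [hμ, div_mul_cancel₀ _ hx']
    ring
  set x₃ := (μ ^ 2 / κ - b) / a - x₁ - x₂ with hx3
  have h3 : a * κ * x₃ = μ ^ 2 - κ * b - κ * a * (x₁ + x₂) := by
    rw [hx3]
    field_simp
    ring
  refine ⟨μ * (x₃ - x₁) + w₁, ?_⟩
  rw [hw] at h2
  apply mul_left_cancel₀ hx'
  unfold cub at h1 h2 ⊢
  linear_combination (x₃ - x₂) * h1 - (x₃ - x₁) * h2 -
    (x₃ - x₁) * (x₃ - x₂) * (x₁ - x₂) * h3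

theorem chord {a b d g κ x₁ x₂ : K} (ha : a ≠ 0) (hκ : κ ≠ 0) (hx : x₁ ≠ x₂)
    (h1 : x₁ ∈ SS a b d g κ) (h2 : x₂ ∈ SS a b d g κ) :
    ∃ x₃ ∈ SS a b d g κ, ∃ x₄ ∈ SS a b d g κ,
      (a * (x₃ + x₄) + 2 * b + 2 * a * (x₁ + x₂)) * (x₁ - x₂) ^ 2 =
        2 * (cub a b d g x₁ + cub a b d g x₂) := by
  obtain ⟨w₁, h1⟩ := h1
  obtain ⟨w₂, h2⟩ := h2
  have h2' : (-w₂) ^ 2 = κ * cub a b d g x₂ := by rw [neg_sq, h2]
  refine ⟨_, third ha hκ hx h1 h2, _, third ha hκ hx h1 h2', ?_⟩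
  have hx' : x₁ - x₂ ≠ 0 := sub_ne_zero.2 hx
  apply mul_left_cancel₀ hκ
  have e : κ * (2 * (cub a b d g x₁ + cub a b d g x₂)) = 2 * (w₁ ^ 2 + w₂ ^ 2) := by
    rw [h1, h2]
    ring
  rw [e]
  field_simp
  ring

theorem dbl_mem {a b d g κ x : K} (ha : a ≠ 0) (hκ : κ ≠ 0) (h2 : (2 : K) ≠ 0)
    (hx : x ∈ SS a b d g κ) (hf : cub a b d g x ≠ 0) : dbl a b d g x ∈ SS a b d g κ := by
  obtain ⟨w, hw⟩ := hx
  have hw0 : w ≠ 0 := by
    rintro rfl
    have : κ * cub a b d g x = 0 := by rw [← hw]; ring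
    rcases mul_eq_zero.1 this with h | h
    · exact hκ h
    · exact hf h
  have h4 : (4 : K) ≠ 0 := by
    have : (4 : K) = 2 * 2 := by norm_num
    rw [this]
    exact mul_ne_zero h2 h2
  set μ := κ * dcub a b d x / (2 * w) with hμ
  have hμ' : 2 * μ * w = κ * dcub a b d x := by
    rw [hμ]
    field_simp
  set y := dbl a b d g x with hy
  have h3 : a * κ * y = μ ^ 2 - κ * b - 2 * κ * a * x := by
    have e1 : μ ^ 2 = κ * (dcub a b d x ^ 2 / (4 * cub a b d g x)) := by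
      have e2 : μ ^ 2 * (4 * w ^ 2) = κ ^ 2 * dcub a b d x ^ 2 := by
        have : μ ^ 2 * (4 * w ^ 2) = (2 * μ * w) ^ 2 := by ring
        rw [this, hμ']
        ring
      rw [hw] at e2
      have h5 : (4 * (κ * cub a b d g x)) ≠ 0 := mul_ne_zero h4 (mul_ne_zero hκ hf)
      apply mul_right_cancel₀ h5
      rw [e2]
      field_simp
    rw [e1, hy, dbl]
    field_simp
  refine ⟨μ * (y - x) + w, ?_⟩
  unfold cub dcub at *
  linear_combination hw + (y - x) * hμ' - (y - x) ^ 2 * h3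

end

end Pool.Agent.V7H58.EC
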