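import Mathlib

/-!
# Sets on which polynomial functions with values in a given set have finitely many values
-/

set_option autoImplicit false

namespace Pool.Agent.V7H58.EC

open MvPolynomial

section

variable {K : Type} [Field K]

/-- polynomial functions on `T` with values in `O` have finitely many values -/
def Rigid (O : Set K) {σ : Type} (T : Set (σ → K)) : Prop :=
  ∀ p : MvPolynomial σ K, (∀ z ∈ T, eval z p ∈ O) → ((fun z => eval z p) '' T).Finite

/-- a retraction onto a finite subset which is compatible with all polynomial functions with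
finitely many values -/
theorem retract {σ : Type} [Finite σ] (T : Set (σ → K)) : ∃ ρ : (σ → K) → (σ → K),
    (∀ z ∈ T, ρ z ∈ T) ∧ (ρ '' T).Finite ∧ ∀ p : MvPolynomial σ K,
      ((fun z => eval z p) '' T).Finite → ∀ z ∈ T, eval (ρ z) p = eval z p := by
  classical
  -- the vanishing ideal
  let I : Ideal (MvPolynomial σ K) :=
    { carrier := {g | ∀ z ∈ T, eval z g = 0}
      add_mem' := fun {a b} ha hb z hz => by
        rw [map_add, ha z hz, hb z hz, add_zero]
      zero_mem' := fun z _ => map_zero _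
      smul_mem' := fun c {x} hx z hz => by
        rw [smul_eq_mul, map_mul, hx z hz, mul_zero] }
  have hI : ∀ g, g ∈ I ↔ ∀ z ∈ T, eval z g = 0 := fun g => Iff.rfl
  have hprime : ∀ z : σ → K, (RingHom.ker (eval z : MvPolynomial σ K →+* K)).IsPrime := fun z =>
    RingHom.ker_isPrime _
  have hfin : I.minimalPrimes.Finite := Ideal.finite_minimalPrimes_of_isNoetherianRing _ I
  have hex : ∀ z ∈ T, ∃ P ∈ I.minimalPrimes, P ≤ RingHom.ker (eval z : MvPolynomial σ K →+* K) := by
    intro z hz
    have := hprime z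
    obtain ⟨P, hP, hP'⟩ := Ideal.exists_minimalPrimes_le (I := I)
      (J := RingHom.ker (eval z : MvPolynomial σ K →+* K)) fun g hg => hg z hz
    exact ⟨P, hP, hP'⟩
  choose! P hP hPz using hex
  -- representatives
  set rep : Ideal (MvPolynomial σ K) → (σ → K) := fun Q =>
    if h : ∃ z ∈ T, P z = Q then h.choose else 0 with hrep
  have hrep1 : ∀ z ∈ T, rep (P z) ∈ T ∧ P (rep (P z)) = P z := by
    intro z hz
    have h : ∃ y ∈ T, P y = P z := ⟨z, hz, rfl⟩
    have e : rep (P z) = h.choose := by
      rw [hrep]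
      simp only [dif_pos h]
    rw [e]
    exact h.choose_spec
  refine ⟨fun z => rep (P z), fun z hz => (hrep1 z hz).1, ?_, fun p hp z hz => ?_⟩
  · refine (hfin.image rep).subset ?_
    rintro _ ⟨z, hz, rfl⟩
    exact ⟨P z, hP z hz, rfl⟩
  · have h1 : ∏ c ∈ hp.toFinset, (p - C c) ∈ I := by
      rw [hI]
      intro y hy
      rw [map_prod]
      refine Finset.prod_eq_zero (i := eval y p) ?_ ?_
      · rw [Set.Finite.mem_toFinset]
        exact ⟨y, hy, rfl⟩
      · rw [map_sub, eval_C, sub_self]
    have hPp : (P z).IsPrime := (hP z hz).1.1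
    have h2 : ∏ c ∈ hp.toFinset, (p - C c) ∈ P z := (hP z hz).1.2 h1
    obtain ⟨c, -, hc⟩ := (hPp.prod_mem_iff).1 h2
    have h3 : eval z (p - C c) = 0 := hPz z hz hc
    have h4 : eval (rep (P z)) (p - C c) = 0 := by
      have h5 := hPz (rep (P z)) (hrep1 z hz).1
      rw [(hrep1 z hz).2] at h5
      exact h5 hc
    rw [map_sub, eval_C, sub_eq_zero] at h3 h4
    rw [h3, h4]

/-- finite products -/
def pi {ι : Type} {σ : ι → Type} (T : ∀ i, Set (σ i → K)) : Set ((Σ i, σ i) → K) :=
  {z | ∀ i, (fun k => z ⟨i, k⟩) ∈ T i}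

theorem Rigid.pi {ι : Type} [Finite ι] {σ : ι → Type} [∀ i, Finite (σ i)] {O : Set K}
    {T : ∀ i, Set (σ i → K)} (hT : ∀ i, Rigid O (T i)) :
    Rigid O (pi T) := by
  classical
  have := Fintype.ofFinite ι
  intro p hp
  choose ρ hρ1 hρ2 hρ3 using fun i => retract (T i)
  -- curried points
  have hp' : ∀ x : ∀ i, σ i → K, (∀ i, x i ∈ T i) →
      eval (fun s : Σ i, σ i => x s.1 s.2) p ∈ O := fun x hx => hp _ fun i => hx i
  have step : ∀ (i : ι) (x : ∀ i, σ i → K), (∀ i, x i ∈ T i) →
      eval (fun s : Σ i, σ i => Function.update x i (ρ i (x i)) s.1 s.2) p =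
        eval (fun s : Σ i, σ i => x s.1 s.2) p := by
    intro i x hx
    set q : MvPolynomial (σ i) K := bind₁ (fun s : Σ i, σ i =>
      if h : s.1 = i then X (h ▸ s.2) else C (x s.1 s.2)) p with hq
    have hqe : ∀ y : σ i → K, eval y q =
        eval (fun s : Σ i, σ i => Function.update x i y s.1 s.2) p := by
      intro y
      rw [hq, eval, eval₂Hom_bind₁]
      refine congrArg (fun h => eval h p) (funext fun s => ?_)
      obtain ⟨j, k⟩ := s
      by_cases h : j = i
      · subst h
        simp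
      · simp [h]
    have h1 : ((fun z => eval z q) '' T i).Finite := hT i q fun y hy => by
      rw [hqe]
      refine hp' _ fun j => ?_
      by_cases h : j = i
      · subst h
        simpa using hy
      · simpa [h] using hx j
    have h2 := hρ3 i q h1 (x i) (hx i)
    rw [hqe, hqe, Function.update_eq_self] at h2
    exact h2
  have main : ∀ (I : Finset ι) (x : ∀ i, σ i → K), (∀ i, x i ∈ T i) →
      eval (fun s : Σ i, σ i => (if s.1 ∈ I then ρ s.1 (x s.1) else x s.1) s.2) p =
        eval (fun s : Σ i, σ i => x s.1 s.2) p := by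
    intro I
    induction I using Finset.induction_on with
    | empty =>
      intro x _
      simp
    | insert i I hi ih =>
      intro x hx
      rw [← ih x hx]
      have h1 := step i (fun j => if j ∈ I then ρ j (x j) else x j) fun j => by
        by_cases hj : j ∈ I
        · simpa [hj] using hρ1 j (x j) (hx j)
        · simpa [hj] using hx j
      rw [← h1]
      refine congrArg (fun h => eval h p) (funext fun s => ?_)
      obtain ⟨j, k⟩ := s
      by_cases h : j = i
      · subst h
        simp [hi]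
      · simp [h]
  have hfin : {x : ∀ i, σ i → K | ∀ i, x i ∈ ρ i '' T i}.Finite := Set.Finite.pi' hρ2
  refine (hfin.image fun x => eval (fun s : Σ i, σ i => x s.1 s.2) p).subset ?_
  rintro _ ⟨z, hz, rfl⟩
  refine ⟨fun i => ρ i fun k => z ⟨i, k⟩, fun i => ⟨_, hz i, rfl⟩, ?_⟩
  have h1 := main Finset.univ (fun i k => z ⟨i, k⟩) hz
  simpa using h1

theorem Rigid.union {ι : Type} [Finite ι] {σ : Type} {O : Set K} {T : ι → Set (σ → K)}
    (hT : ∀ i, Rigid O (T i)) : Rigid O (⋃ i, T i) := by
  intro p hp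
  rw [Set.image_iUnion]
  exact Set.finite_iUnion fun i => hT i p fun z hz => hp z (Set.mem_iUnion.2 ⟨i, hz⟩)

/-- a set with a rigid Zariski dense subset -/
theorem Rigid.dense {σ : Type} {O : Set K} {T Y : Set (σ → K)} (hTY : T ⊆ Y)
    (h : ∀ g : MvPolynomial σ K, (∀ z ∈ T, eval z g = 0) → ∀ z ∈ Y, eval z g = 0)
    (hT : Rigid O T) : Rigid O Y := by
  classical
  intro p hp
  have h1 := hT p fun z hz => hp z (hTY hz)
  refine h1.subset ?_
  rintro _ ⟨z, hz, rfl⟩
  have h2 := h (∏ c ∈ h1.toFinset, (p - C c)) (fun y hy => by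
    rw [map_prod]
    refine Finset.prod_eq_zero (i := eval y p) ?_ ?_
    · rw [Set.Finite.mem_toFinset]
      exact ⟨y, hy, rfl⟩
    · rw [map_sub, eval_C, sub_self]) z hz
  rw [map_prod, Finset.prod_eq_zero_iff] at h2
  obtain ⟨c, hc, hc'⟩ := h2
  rw [map_sub, eval_C, sub_eq_zero] at hc'
  rw [Set.Finite.mem_toFinset] at hc
  show eval z p ∈ _
  rw [hc']
  exact hc

theorem Rigid.image {σ τ : Type} {O : Set K} {T : Set (σ → K)} (hT : Rigid O T)
    (g : τ → MvPolynomial σ K) : Rigid O ((fun z k => eval z (g k)) '' T) := by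
  intro p hp
  have he : ∀ z : σ → K, eval z (bind₁ g p) = eval (fun k => eval z (g k)) p := by
    intro z
    rw [eval, eval₂Hom_bind₁]
    rfl
  have h1 := hT (bind₁ g p) fun z hz => by
    rw [he]
    exact hp _ ⟨z, hz, rfl⟩
  refine h1.subset ?_
  rintro _ ⟨_, ⟨z, hz, rfl⟩, rfl⟩
  exact ⟨z, hz, he z⟩

end

end Pool.Agent.V7H58.EC
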