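import Pool.Agent.V7H58.EC.Good2
import Pool.Agent.V7H58.EC.Cov
import Pool.Agent.V7H58.EC.Rigid
import Pool.Agent.TH783.CE.NF

/-!
# Number fields
-/

set_option autoImplicit false

namespace Pool.Agent.V7H58.EC

open Polynomial IsDedekindDomain NumberField

section

variable {K : Type} [Field K] [NumberField K]

theorem place_above (p : ℕ) (hp : p.Prime) : ∃ v : HeightOneSpectrum (𝓞 K),
    ((p : 𝓞 K) ∈ v.asIdeal) := by
  have h1 : ¬ IsUnit ((p : ℕ) : 𝓞 K) := by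
    intro h
    have h2 : IsUnit (Algebra.norm ℤ ((p : ℕ) : 𝓞 K)) := h.map (Algebra.norm ℤ)
    have h3 : Algebra.norm ℤ ((p : ℕ) : 𝓞 K) = (p : ℤ) ^ Module.finrank ℤ (𝓞 K) := by
      have h4 := Algebra.norm_algebraMap (S := 𝓞 K) (p : ℤ)
      simpa using h4
    rw [h3] at h2
    have h5 : Module.finrank ℤ (𝓞 K) ≠ 0 := Module.finrank_pos.ne'
    rw [isUnit_pow_iff h5, Int.isUnit_iff] at h2
    have h6 := hp.one_lt
    rcases h2 with h | h <;> omega
  obtain ⟨I, hI, hpI⟩ := exists_max_ideal_of_mem_nonunits h1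
  refine ⟨⟨I, hI.isPrime, ?_⟩, hpI⟩
  rintro rfl
  have h2 : ((p : ℕ) : 𝓞 K) = 0 := by simpa using hpI
  have h3 : (p : 𝓞 K) ≠ 0 := by exact_mod_cast hp.ne_zero
  exact h3 h2

theorem abv_lt_one {v : HeightOneSpectrum (𝓞 K)} {p : ℕ} (h : (p : 𝓞 K) ∈ v.asIdeal) :
    abv (K := K) v p < 1 := by
  have h1 : v.valuation K (algebraMap (𝓞 K) K (p : 𝓞 K)) < 1 :=
    (v.valuation_lt_one_iff_mem (K := K) _).2 h
  rw [map_natCast] at h1
  rw [← not_le]
  intro h2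
  have h3 := (abv_le_iff v 1 (p : K)).1 (by rwa [map_one])
  rw [map_one] at h3
  exact absurd h1 (not_lt.2 h3)

/-- `O` is bounded at a place of `K` -/
def BddSome (O : Set K) : Prop :=
  (∃ (v : HeightOneSpectrum (𝓞 K)) (B : WithZero (Multiplicative ℤ)), ∀ x ∈ O,
    v.valuation K x ≤ B) ∨ ∃ (σ : K →+* ℂ) (B : ℝ), ∀ x ∈ O, ‖σ x‖ ≤ B

theorem BddSome.lc {O : Set K} (h : BddSome O) : ∃ v : AbsoluteValue K ℝ, LC v ∧ Bdd v O := by
  rcases h with ⟨v, B, h⟩ | ⟨σ, B, h⟩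
  · obtain ⟨c, hc⟩ := v.valuation_surjective K B
    refine ⟨abv v, lc_abv v, abv v c, fun x hx => ?_⟩
    rw [abv_le_iff, hc]
    exact h x hx
  · exact ⟨cabv σ, lc_cabv σ, B, h⟩

theorem noPole_bdd {Q : Set ℕ} (hQ : ∃ p ∈ Q, p.Prime) :
    BddSome (Pool.Agent.TH783.CE.NoPole K Q) := by
  obtain ⟨p, hpQ, hp⟩ := hQ
  obtain ⟨v, hv⟩ := place_above (K := K) p hp
  exact Or.inl ⟨v, 1, fun x hx => hx v ⟨p, hp, hpQ, hv⟩⟩

/-- `f` is not constant and `f = q² h`, `h` without multiple roots and of degree at most `3`, but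
not `2` -/
def SmallOdd (f : K[X]) : Prop :=
  f.natDegree ≠ 0 ∧ ∃ q h : K[X], f = q ^ 2 * h ∧ h.Separable ∧ h.natDegree ≤ 3 ∧
    h.natDegree ≠ 2

/-- `f` is not constant and `f = q² h`, `h` without multiple roots and of degree at most `3` -/
def Small (f : K[X]) : Prop :=
  f.natDegree ≠ 0 ∧ ∃ q h : K[X], f = q ^ 2 * h ∧ h.Separable ∧ h.natDegree ≤ 3

theorem good_of_odd {O : Set K} (hO : BddSome O) {f : K[X]} (hf : SmallOdd f) : Good O f := by
  obtain ⟨v, hv, hvO⟩ := hO.lc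
  obtain ⟨u, hu⟩ := place_above (K := K) 2 Nat.prime_two
  have hu2 : abv (K := K) u 2 < 1 := by
    have := abv_lt_one hu
    simpa using this
  have h2 : (2 : K) ≠ 0 := two_ne_zero
  obtain ⟨hfd, q, h, rfl, hs, hd, hd2⟩ := hf
  have hq : q ≠ 0 := by
    rintro rfl
    simp at hfd
  have hh : h ≠ 0 := by
    rintro rfl
    simp at hfd
  rcases (show h.natDegree = 0 ∨ h.natDegree = 1 ∨ h.natDegree = 3 by omega) with h0 | h0 | h0
  · have e := eq_C_of_natDegree_eq_zero h0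
    have hc : h.coeff 0 ≠ 0 := fun hc => hh (by rw [e, hc, C_0])
    rw [e]
    refine good_square hv h2 hvO ?_ hc
    intro hq0
    apply hfd
    rw [natDegree_mul (pow_ne_zero 2 hq) hh, natDegree_pow, hq0, h0]
  · exact good_mul hq (good_linear hv h2 hvO h0)
  · exact good_mul hq (good_cubic hv (lc_abv u) (na_abv u) hu2 h2 hvO h0 hs)

theorem good_of_small {Q : Set ℕ} (hQ : Pool.Agent.TH766.HP.Rich Q) (hQ' : ∃ p ∈ Q, p.Prime)
    {f : K[X]} (hf : Small f) : Good (Pool.Agent.TH783.CE.NoPole K Q) f := by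
  obtain ⟨hfd, q, h, hqh, hs, hd⟩ := hf
  by_cases h2 : h.natDegree = 2
  · rw [hqh]
    refine good_mul ?_ (good_quadratic (Pool.Agent.TH783.CE.flat_noPole (K := K) hQ) h2)
    rintro rfl
    apply hfd
    rw [hqh]
    simp
  · exact good_of_odd (noPole_bdd hQ') ⟨hfd, q, h, hqh, hs, hd, h2⟩

end

end Pool.Agent.V7H58.EC
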