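import Pool.Agent.V7H58.EC.Good
import Pool.Agent.V7H58.EC.Rigid

/-!
# Punctured double covers of the line
-/

set_option autoImplicit false

namespace Pool.Agent.V7H58.EC

open Polynomial

section

variable {K : Type} [Field K] {v : AbsoluteValue K ℝ}

/-- division by linear factors, for a function which is bounded near their zeros -/
theorem div_list (S : Set K) (L0 : Finset K) {B : ℝ} (hB : 0 ≤ B) (m : Multiset K) :
    ∀ (A : K[X]), (∀ c ∈ m, c ∈ L0 ∧ ∀ ε : ℝ, 0 < ε → ∃ x ∈ S, x ∉ L0 ∧ v (x - c) < ε) →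
      (∀ x ∈ S, x ∉ L0 → v (A.eval x) ≤ B * v ((m.map fun c => x - c).prod)) →
      ∃ A' : K[X], A = (m.map fun c => X - C c).prod * A' ∧
        ∀ x ∈ S, x ∉ L0 → v (A'.eval x) ≤ B := by
  induction m using Multiset.induction with
  | empty =>
    intro A _ h
    refine ⟨A, by simp, fun x hx hx' => ?_⟩
    simpa using h x hx hx'
  | cons c m ih =>
    intro A hm h
    obtain ⟨hcL, hc⟩ := hm c (Multiset.mem_cons_self c m)
    have hroot : A.eval c = 0 := by
      by_contra hne
      have hpos : 0 < v (A.eval c) := v.pos hne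
      obtain ⟨G, hG⟩ : ∃ G : K[X], A - C (A.eval c) = (X - C c) * G := by
        have : (X - C c) ∣ A - C (A.eval c) := by
          rw [dvd_iff_isRoot]
          simp [IsRoot]
        exact this
      obtain ⟨C₁, hC₁, h1⟩ := poly_bdd v G (v c + 1)
      obtain ⟨C₂, hC₂, h2⟩ := poly_bdd v (m.map fun c => X - C c).prod (v c + 1)
      have hpr : ∀ x : K, ((m.map fun c => X - C c).prod).eval x =
          (m.map fun c => x - c).prod := by
        intro x
        rw [eval_multiset_prod, Multiset.map_map]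
        congr 1
        refine Multiset.map_congr rfl fun c _ => ?_
        simp
      set D := C₁ + B * C₂ with hD
      have hDpos : 0 < D := by
        have : 0 ≤ B * C₂ := mul_nonneg hB (by linarith)
        linarith
      obtain ⟨x, hxS, hxL, hxc⟩ := hc (min 1 (v (A.eval c) / D)) (by positivity)
      have hx1 : v (x - c) < 1 := hxc.trans_le (min_le_left _ _)
      have hx2 : v (x - c) < v (A.eval c) / D := hxc.trans_le (min_le_right _ _)
      have hxb : v x ≤ v c + 1 := by
        have := v.add_le (x - c) c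
        rw [sub_add_cancel] at this
        linarith
      have h3 : v (A.eval x) ≤ B * C₂ * v (x - c) := by
        refine (h x hxS hxL).trans ?_
        rw [Multiset.map_cons, Multiset.prod_cons, map_mul, ← hpr]
        have h4 := h2 x hxb
        have h5 : v (x - c) * v (((m.map fun c => X - C c).prod).eval x) ≤ v (x - c) * C₂ :=
          mul_le_mul_of_nonneg_left h4 (v.nonneg _)
        calc B * (v (x - c) * v (((m.map fun c => X - C c).prod).eval x))
            ≤ B * (v (x - c) * C₂) := mul_le_mul_of_nonneg_left h5 hB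
          _ = B * C₂ * v (x - c) := by ring
      have h6 : v (A.eval x - A.eval c) ≤ C₁ * v (x - c) := by
        have e : A.eval x - A.eval c = (x - c) * G.eval x := by
          have := congrArg (eval x) hG
          simpa using this
        rw [e, map_mul, mul_comm]
        exact mul_le_mul_of_nonneg_right (h1 x hxb) (v.nonneg _)
      have h7 : v (A.eval c) ≤ D * v (x - c) := by
        have e : A.eval c = A.eval x + -(A.eval x - A.eval c) := by ring
        rw [e]
        refine (v.add_le _ _).trans ?_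
        rw [map_neg_eq_map, hD]
        linarith
      have h8 : D * v (x - c) < v (A.eval c) := by
        rw [lt_div_iff₀ hDpos] at hx2
        linarith
      linarith
    obtain ⟨A₁, rfl⟩ : (X - C c) ∣ A := dvd_iff_isRoot.2 hroot
    obtain ⟨A', hA', hA''⟩ := ih A₁ (fun c' hc' => hm c' (Multiset.mem_cons_of_mem hc'))
      (fun x hx hx' => by
        have h1 := h x hx hx'
        have hxc : x - c ≠ 0 := by
          intro h0
          rw [sub_eq_zero] at h0
          subst h0
          exact hx' hcL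
        have hv := v.pos hxc
        rw [eval_mul, map_mul, Multiset.map_cons, Multiset.prod_cons, map_mul] at h1
        simp only [eval_sub, eval_X, eval_C] at h1
        have h2 : v (x - c) * v (A₁.eval x) ≤ v (x - c) * (B * v ((m.map fun c => x - c).prod)) := by
          calc v (x - c) * v (A₁.eval x)
              ≤ B * (v (x - c) * v ((m.map fun c => x - c).prod)) := h1
            _ = v (x - c) * (B * v ((m.map fun c => x - c).prod)) := by ring
        exact le_of_mul_le_mul_left h2 hv)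
    refine ⟨A', ?_, hA''⟩
    rw [hA', Multiset.map_cons, Multiset.prod_cons, mul_assoc]

/-- the points of `w² = f(x)` with `∏ (x - c) ≠ 0`; the third coordinate is the inverse of the
product -/
def Pct (f : K[X]) (C : Finset K) : Set (Fin 3 → K) :=
  {z | z 1 ^ 2 = f.eval (z 0) ∧ z 2 * ∏ c ∈ C, (z 0 - c) = 1}

/-- polynomial functions on the punctured curve -/
theorem red3 (f D : K[X]) (p : MvPolynomial (Fin 3) K) :
    ∃ (A B : K[X]) (N : ℕ), ∀ x w : K, w ^ 2 = f.eval x → D.eval x ≠ 0 →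
      MvPolynomial.eval ![x, w, (D.eval x)⁻¹] p = (A.eval x + w * B.eval x) / D.eval x ^ N := by
  induction p using MvPolynomial.induction_on with
  | C c => exact ⟨C c, 0, 0, fun x w _ _ => by simp⟩
  | add p q hp hq =>
    obtain ⟨A₁, B₁, N₁, h1⟩ := hp
    obtain ⟨A₂, B₂, N₂, h2⟩ := hq
    refine ⟨A₁ * D ^ N₂ + A₂ * D ^ N₁, B₁ * D ^ N₂ + B₂ * D ^ N₁, N₁ + N₂, fun x w hw hD => ?_⟩
    rw [map_add, h1 x w hw hD, h2 x w hw hD]
    simp only [eval_add, eval_mul, eval_pow]
    rw [pow_add]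
    field_simp
    ring
  | mul_X p k hp =>
    obtain ⟨A, B, N, h⟩ := hp
    fin_cases k
    · refine ⟨X * A, X * B, N, fun x w hw hD => ?_⟩
      rw [map_mul, h x w hw hD, MvPolynomial.eval_X]
      simp only [eval_mul, eval_X]
      show _ * x = _
      field_simp
    · refine ⟨f * B, A, N, fun x w hw hD => ?_⟩
      rw [map_mul, h x w hw hD, MvPolynomial.eval_X]
      simp only [eval_mul]
      show _ * w = _
      rw [div_mul_eq_mul_div]
      congr 1
      linear_combination (B.eval x) * hw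
    · refine ⟨A, B, N + 1, fun x w hw hD => ?_⟩
      rw [map_mul, h x w hw hD, MvPolynomial.eval_X]
      show _ * (D.eval x)⁻¹ = _
      rw [pow_succ]
      field_simp

theorem pct_const (h2 : (2 : K) ≠ 0) {O : Set K} (hO : Bdd v O) {f : K[X]}
    (hodd : Odd f.natDegree) {P : Finset K} (hu : ∀ M : ℝ, ∃ x ∈ Ab f 1, M < v x)
    (hn : ∀ c ∈ P, ∀ ε : ℝ, 0 < ε → ∃ x ∈ Ab f 1, x ≠ c ∧ v (x - c) < ε)
    (p : MvPolynomial (Fin 3) K) (hp : ∀ z ∈ Pct f P, MvPolynomial.eval z p ∈ O) :
    ∃ a₀ : K, ∀ z ∈ Pct f P, MvPolynomial.eval z p = a₀ := by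
  classical
  obtain ⟨B₀, hB₀⟩ := hO
  set D : K[X] := ∏ c ∈ P, (X - C c) with hD
  have hDe : ∀ x, D.eval x = ∏ c ∈ P, (x - c) := by
    intro x
    rw [hD, eval_prod]
    simp
  obtain ⟨A, B, N, hAB⟩ := red3 f D p
  have v2 : 0 < v 2 := v.pos h2
  have hz : ∀ x w : K, w ^ 2 = f.eval x → D.eval x ≠ 0 → ![x, w, (D.eval x)⁻¹] ∈ Pct f P := by
    intro x w hw hDx
    refine ⟨hw, ?_⟩
    show (D.eval x)⁻¹ * ∏ c ∈ P, (x - c) = 1
    rw [← hDe, inv_mul_cancel₀ hDx]
  have hDx : ∀ x : K, x ∉ P → D.eval x ≠ 0 := by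
    intro x hx
    rw [hDe, Finset.prod_ne_zero_iff]
    intro c hc h0
    rw [sub_eq_zero] at h0
    subst h0
    exact hx hc
  set B₁ : ℝ := max 0 ((B₀ + B₀) / v 2) with hB₁
  have hB₁0 : 0 ≤ B₁ := le_max_left _ _
  have hbd : ∀ x w : K, w ^ 2 = f.eval x → x ∉ P →
      v (A.eval x) ≤ B₁ * v (D.eval x ^ N) ∧ v (w * B.eval x) ≤ B₁ * v (D.eval x ^ N) := by
    intro x w hw hx
    have h0 := hDx x hx
    have h00 : D.eval x ^ N ≠ 0 := pow_ne_zero N h0
    have hv0 : 0 < v (D.eval x ^ N) := v.pos h00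
    have h3 := hB₀ _ (hp _ (hz x w hw h0))
    have h4 := hB₀ _ (hp _ (hz x (-w) (by rw [neg_sq, hw]) h0))
    rw [hAB x w hw h0, map_div₀, div_le_iff₀ hv0] at h3
    rw [hAB x (-w) (by rw [neg_sq, hw]) h0, map_div₀, div_le_iff₀ hv0] at h4
    have k1 : v (2 * A.eval x) ≤ (B₀ + B₀) * v (D.eval x ^ N) := by
      have e : 2 * A.eval x = (A.eval x + w * B.eval x) + (A.eval x + -w * B.eval x) := by ring
      rw [e]
      refine (v.add_le _ _).trans ?_
      linarith
    have k2 : v (2 * (w * B.eval x)) ≤ (B₀ + B₀) * v (D.eval x ^ N) := by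
      have e : 2 * (w * B.eval x) =
          (A.eval x + w * B.eval x) + -(A.eval x + -w * B.eval x) := by ring
      rw [e]
      refine (v.add_le _ _).trans ?_
      rw [map_neg_eq_map]
      linarith
    have k3 : (B₀ + B₀) * v (D.eval x ^ N) / v 2 ≤ B₁ * v (D.eval x ^ N) := by
      have : (B₀ + B₀) * v (D.eval x ^ N) / v 2 = (B₀ + B₀) / v 2 * v (D.eval x ^ N) := by ring
      rw [this]
      exact mul_le_mul_of_nonneg_right (le_max_right _ _) hv0.le
    rw [map_mul] at k1
    rw [map_mul v 2 (w * B.eval x)] at k2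
    constructor
    · refine le_trans ?_ k3
      rw [le_div_iff₀ v2]
      linarith
    · refine le_trans ?_ k3
      rw [le_div_iff₀ v2]
      linarith
  -- the sets of abscissae
  have hnear : ∀ c ∈ P, ∀ ε : ℝ, 0 < ε → ∃ x ∈ Ab f 1, x ∉ P ∧ v (x - c) < ε := by
    intro c hc ε hε
    obtain ⟨δ, hδ, hδ'⟩ : ∃ δ : ℝ, 0 < δ ∧ ∀ c' ∈ P, c' ≠ c → δ ≤ v (c' - c) := by
      rcases (P.erase c).eq_empty_or_nonempty with he | hne
      · refine ⟨1, one_pos, fun c' hc' hne => ?_⟩
        have : c' ∈ P.erase c := Finset.mem_erase.2 ⟨hne, hc'⟩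
        rw [he] at this
        exact absurd this (Finset.notMem_empty c')
      · obtain ⟨c₀, hc₀, hmin⟩ := Finset.exists_min_image (P.erase c) (fun c' => v (c' - c)) hne
        refine ⟨v (c₀ - c), v.pos (sub_ne_zero.2 (Finset.ne_of_mem_erase hc₀)),
          fun c' hc' hne' => hmin c' (Finset.mem_erase.2 ⟨hne', hc'⟩)⟩
    obtain ⟨x, hx, hxc, hxε⟩ := hn c hc (min ε δ) (lt_min hε hδ)
    refine ⟨x, hx, fun hxP => ?_, hxε.trans_le (min_le_left _ _)⟩
    exact absurd (hδ' x hxP hxc) (not_le.2 (hxε.trans_le (min_le_right _ _)))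
  have hfar : ∀ M : ℝ, ∃ x ∈ Ab f 1, x ∉ P ∧ M < v x := by
    intro M
    obtain ⟨x, hx, hM⟩ := hu (max M (∑ c ∈ P, v c))
    refine ⟨x, hx, fun hxP => ?_, (le_max_left _ _).trans_lt hM⟩
    have h1 : v x ≤ ∑ c ∈ P, v c :=
      Finset.single_le_sum (f := fun c => v c) (fun c _ => v.nonneg c) hxP
    exact absurd h1 (not_le.2 ((le_max_right _ _).trans_lt hM))
  have hmul : ∀ (n : ℕ) (x : K), ((n • P.val).map fun c => x - c).prod = D.eval x ^ n := by
    intro n x
    rw [Multiset.map_nsmul, Multiset.prod_nsmul, hDe]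
    rfl
  have hmulX : ∀ n : ℕ, ((n • P.val).map fun c => X - C c).prod = D ^ n := by
    intro n
    rw [Multiset.map_nsmul, Multiset.prod_nsmul, hD]
    rfl
  have hmem : ∀ (n : ℕ), ∀ c ∈ n • P.val, c ∈ P ∧
      ∀ ε : ℝ, 0 < ε → ∃ x ∈ Ab f 1, x ∉ P ∧ v (x - c) < ε := by
    intro n c hc
    have hcP : c ∈ P := Multiset.mem_of_mem_nsmul hc
    exact ⟨hcP, hnear c hcP⟩
  obtain ⟨A', hA', hA''⟩ := div_list (Ab f 1) P hB₁0 (N • P.val) A (hmem N) (by
    rintro x ⟨w, hw⟩ hx
    rw [one_mul] at hw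
    rw [hmul]
    exact (hbd x w hw hx).1)
  obtain ⟨G, hG', hG''⟩ := div_list (Ab f 1) P (B := B₁ ^ 2) (by positivity) ((2 * N) • P.val)
    (f * B ^ 2) (hmem (2 * N)) (by
    rintro x ⟨w, hw⟩ hx
    rw [one_mul] at hw
    rw [hmul, eval_mul, eval_pow, ← hw, ← mul_pow, map_pow, mul_comm 2 N, pow_mul, map_pow v _ 2,
      ← mul_pow]
    exact pow_le_pow_left₀ (v.nonneg _) (hbd x w hw hx).2 2)
  have hA0 : A' = C (A'.coeff 0) := by
    refine const_of_bdd (v := v) (B := B₁) fun M => ?_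
    obtain ⟨x, hx, hxP, hM⟩ := hfar M
    exact ⟨x, hM, hA'' x hx hxP⟩
  have hG0 : G = C (G.coeff 0) := by
    refine const_of_bdd (v := v) (B := B₁ ^ 2) fun M => ?_
    obtain ⟨x, hx, hxP, hM⟩ := hfar M
    exact ⟨x, hM, hG'' x hx hxP⟩
  have hf0 : f ≠ 0 := by
    rintro rfl
    simp at hodd
  have hD0 : D ≠ 0 := by
    rw [hD, Finset.prod_ne_zero_iff]
    intro c _
    exact X_sub_C_ne_zero c
  have hBz : B = 0 := by
    by_contra hB
    rw [hmulX, hG0] at hG'
    have hg : G.coeff 0 ≠ 0 := by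
      intro h
      rw [h, C_0, mul_zero] at hG'
      rcases mul_eq_zero.1 hG' with h1 | h1
      · exact hf0 h1
      · exact hB (pow_eq_zero_iff two_ne_zero |>.1 h1)
    have h3 := congrArg natDegree hG'
    rw [natDegree_mul hf0 (pow_ne_zero 2 hB), natDegree_pow, natDegree_mul (pow_ne_zero _ hD0)
      (C_ne_zero.2 hg), natDegree_C, natDegree_pow] at h3
    obtain ⟨k, hk⟩ := hodd
    have h4 : f.natDegree + 2 * B.natDegree = 2 * (N * D.natDegree) := by
      rw [h3]
      ring
    omega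
  refine ⟨A'.coeff 0, fun z hz => ?_⟩
  obtain ⟨h5, h6⟩ := hz
  rw [← hDe] at h6
  have h7 : D.eval (z 0) ≠ 0 := by
    intro h
    rw [h, mul_zero] at h6
    exact zero_ne_one h6
  have h8 : z = ![z 0, z 1, (D.eval (z 0))⁻¹] := by
    funext i
    fin_cases i
    · rfl
    · rfl
    · exact eq_inv_of_mul_eq_one_left h6
  rw [h8, hAB _ _ h5 h7, hBz, hA', hmulX, hA0]
  simp only [eval_mul, eval_pow, eval_C, eval_zero, mul_zero, add_zero, coeff_C_zero]
  rw [mul_div_assoc, mul_comm, div_mul_cancel₀]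
  exact pow_ne_zero N h7

end

end Pool.Agent.V7H58.EC
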