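import Pool.Agent.V7H58.EC.Grp

/-!
# Bounded sets of abscissae are uniformly finite
-/

set_option autoImplicit false

namespace Pool.Agent.V7H58.EC

open Polynomial

section

variable {K : Type} [Field K] (v : AbsoluteValue K ℝ)

theorem poly_bdd (u : K[X]) (M : ℝ) : ∃ C : ℝ, 1 ≤ C ∧ ∀ x : K, v x ≤ M → v (u.eval x) ≤ C := by
  induction u using Polynomial.induction_on' with
  | add p q hp hq =>
    obtain ⟨C₁, h1, h2⟩ := hp
    obtain ⟨C₂, h3, h4⟩ := hq
    refine ⟨C₁ + C₂, by linarith, fun x hx => ?_⟩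
    rw [eval_add]
    exact (v.add_le _ _).trans (add_le_add (h2 x hx) (h4 x hx))
  | monomial n c =>
    refine ⟨1 + v c * (max M 0) ^ n, ?_, fun x hx => ?_⟩
    · have : 0 ≤ v c * (max M 0) ^ n := mul_nonneg (v.nonneg _) (by positivity)
      linarith
    · rw [eval_monomial, map_mul, map_pow]
      have h1 : v x ^ n ≤ (max M 0) ^ n :=
        pow_le_pow_left₀ (v.nonneg _) (hx.trans (le_max_left _ _)) n
      have h2 := mul_le_mul_of_nonneg_left h1 (v.nonneg c)
      linarith

/-- separability: `u f + t f' = 1` -/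
def Sep (a b d g : K) : Prop :=
  ∃ u t : K[X], ∀ x : K, u.eval x * cub a b d g x + t.eval x * dcub a b d x = 1

variable {v}

theorem low {a b d g : K} (ha : a ≠ 0) (h2 : (2 : K) ≠ 0) (hs : Sep a b d g) (M : ℝ) :
    ∃ δ : ℝ, 0 < δ ∧ ∀ κ : K, κ ≠ 0 → (∀ x ∈ SS a b d g κ, v x ≤ M) →
      ∀ x ∈ SS a b d g κ, cub a b d g x ≠ 0 → δ ≤ v (cub a b d g x) := by
  obtain ⟨u, t, hut⟩ := hs
  obtain ⟨C₁, hC₁, hu⟩ := poly_bdd v u M
  obtain ⟨C₂, hC₂, ht⟩ := poly_bdd v t M
  have h4 : (4 : K) ≠ 0 := by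
    have : (4 : K) = 2 * 2 := by norm_num
    rw [this]
    exact mul_ne_zero h2 h2
  set C := max C₁ C₂ with hC
  have hC1 : 1 ≤ C := hC₁.trans (le_max_left _ _)
  set B := (v a * |M| + v b + v 2 * v a * |M|) * v 4 + 1 with hB
  have hBpos : 0 < B := by
    have := v.nonneg a
    have := v.nonneg b
    have := v.nonneg 2
    have := v.nonneg 4
    positivity
  refine ⟨min (1 / (2 * C)) (1 / (4 * C ^ 2 * B)), by positivity, fun κ hκ hM x hx hf => ?_⟩
  have hxM := hM x hx
  have hyM := hM _ (dbl_mem ha hκ h2 hx hf)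
  have e1 : dcub a b d x ^ 2 = (a * dbl a b d g x + b + 2 * a * x) * 4 * cub a b d g x := by
    unfold dbl
    field_simp
    ring
  have hfp : 0 < v (cub a b d g x) := v.pos hf
  have e2 : v (dcub a b d x) ^ 2 ≤ B * v (cub a b d g x) := by
    rw [← map_pow, e1, map_mul, map_mul]
    refine mul_le_mul_of_nonneg_right ?_ hfp.le
    have h5 : v (a * dbl a b d g x + b + 2 * a * x) ≤ v a * |M| + v b + v 2 * v a * |M| := by
      refine (v.add_le _ _).trans (add_le_add ((v.add_le _ _).trans (add_le_add ?_ le_rfl)) ?_)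
      · rw [map_mul]
        exact mul_le_mul_of_nonneg_left (hyM.trans (le_abs_self _)) (v.nonneg _)
      · rw [map_mul, map_mul]
        exact mul_le_mul_of_nonneg_left (hxM.trans (le_abs_self _))
          (mul_nonneg (v.nonneg _) (v.nonneg _))
    have h6 := mul_le_mul_of_nonneg_right h5 (v.nonneg 4)
    linarith
  have e3 : 1 ≤ C * v (cub a b d g x) + C * v (dcub a b d x) := by
    have h5 := hut x
    have h6 : v (u.eval x * cub a b d g x + t.eval x * dcub a b d x) = 1 := by rw [h5, map_one]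
    rw [← h6]
    refine (v.add_le _ _).trans (add_le_add ?_ ?_)
    · rw [map_mul]
      exact mul_le_mul_of_nonneg_right ((hu x hxM).trans (le_max_left _ _)) (v.nonneg _)
    · rw [map_mul]
      exact mul_le_mul_of_nonneg_right ((ht x hxM).trans (le_max_right _ _)) (v.nonneg _)
  by_cases h7 : 1 / (2 * C) ≤ v (cub a b d g x)
  · exact (min_le_left _ _).trans h7
  · push Not at h7
    refine (min_le_right _ _).trans ?_
    have hCpos : 0 < C := by linarith
    have h8 : C * v (cub a b d g x) < 1 / 2 := by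
      have := mul_lt_mul_of_pos_left h7 hCpos
      have e : C * (1 / (2 * C)) = 1 / 2 := by field_simp
      linarith
    have h9 : 1 / 2 < C * v (dcub a b d x) := by linarith
    have h10 : 1 / 4 < C ^ 2 * (B * v (cub a b d g x)) := by
      have h11 : (1 / 2 : ℝ) ^ 2 < (C * v (dcub a b d x)) ^ 2 :=
        pow_lt_pow_left₀ h9 (by norm_num) (by norm_num)
      have h12 : (C * v (dcub a b d x)) ^ 2 ≤ C ^ 2 * (B * v (cub a b d g x)) := by
        rw [mul_pow]
        exact mul_le_mul_of_nonneg_left e2 (by positivity)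
      have : (1 / 2 : ℝ) ^ 2 = 1 / 4 := by norm_num
      linarith
    rw [div_le_iff₀ (by positivity)]
    nlinarith [h10]

theorem separ {a b d g : K} (ha : a ≠ 0) (h2 : (2 : K) ≠ 0) (hs : Sep a b d g) (M : ℝ) :
    ∃ δ : ℝ, 0 < δ ∧ ∀ κ : K, κ ≠ 0 → (∀ x ∈ SS a b d g κ, v x ≤ M) →
      ∀ x ∈ SS a b d g κ, ∀ y ∈ SS a b d g κ, x ≠ y → cub a b d g x ≠ 0 → δ ≤ v (x - y) := by
  obtain ⟨δ, hδ, hl⟩ := low (v := v) ha h2 hs M
  have h4 : (4 : K) ≠ 0 := by
    have : (4 : K) = 2 * 2 := by norm_num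
    rw [this]
    exact mul_ne_zero h2 h2
  have n1 := v.nonneg a
  have n2 := v.nonneg b
  have n3 := v.nonneg d
  have n4 := v.nonneg 2
  have v4 : 0 < v 4 := v.pos h4
  set C₄ := v a * (2 * |M|) + v 2 * v b + v 2 * v a * (2 * |M|) with hC₄
  set C₅ := v a * (3 * |M| ^ 2) + v b * (2 * |M|) + v d with hC₅
  have hC₄0 : 0 ≤ C₄ := by positivity
  have hC₅0 : 0 ≤ C₅ := by positivity
  refine ⟨v 4 * δ / (C₄ * (2 * |M|) + v 2 * C₅ + 1), by positivity,
    fun κ hκ hM x hx y hy hxy hf => ?_⟩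
  obtain ⟨x₃, h3, x₄, h4', hc⟩ := chord ha hκ hxy hx hy
  have bx : v x ≤ |M| := (hM x hx).trans (le_abs_self _)
  have bY : v y ≤ |M| := (hM y hy).trans (le_abs_self _)
  have b3 : v x₃ ≤ |M| := (hM x₃ h3).trans (le_abs_self _)
  have b4 : v x₄ ≤ |M| := (hM x₄ h4').trans (le_abs_self _)
  have hfl := hl κ hκ hM x hx hf
  set D := v (x - y) with hD
  have hD0 : 0 ≤ D := v.nonneg _
  have hDM : D ≤ 2 * |M| := by
    have : v (x - y) ≤ v x + v y := v.sub_le_add _ _
    linarith
  -- the left hand side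
  have l1 : v (2 * (cub a b d g x + cub a b d g y)) ≤ C₄ * D ^ 2 := by
    rw [← hc, map_mul, map_pow]
    refine mul_le_mul_of_nonneg_right ?_ (by positivity)
    refine (v.add_le _ _).trans (add_le_add ((v.add_le _ _).trans (add_le_add ?_ ?_)) ?_)
    · rw [map_mul]
      refine mul_le_mul_of_nonneg_left ((v.add_le _ _).trans ?_) n1
      linarith
    · rw [map_mul]
    · rw [map_mul, map_mul]
      refine mul_le_mul_of_nonneg_left ((v.add_le _ _).trans ?_) (mul_nonneg n4 n1)
      linarith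
  have l2 : v (cub a b d g y - cub a b d g x) ≤ C₅ * D := by
    have e : cub a b d g y - cub a b d g x =
        (a * (x * x + x * y + y * y) + b * (x + y) + d) * (-(x - y)) := by
      unfold cub
      ring
    rw [e, map_mul, map_neg_eq_map]
    refine mul_le_mul_of_nonneg_right ?_ hD0
    refine (v.add_le _ _).trans (add_le_add ((v.add_le _ _).trans (add_le_add ?_ ?_)) le_rfl)
    · rw [map_mul]
      refine mul_le_mul_of_nonneg_left ?_ n1
      refine (v.add_le _ _).trans ?_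
      have k1 : v (x * x + x * y) ≤ |M| ^ 2 + |M| ^ 2 := by
        refine (v.add_le _ _).trans (add_le_add ?_ ?_)
        · rw [map_mul, sq]
          exact mul_le_mul bx bx (v.nonneg _) (abs_nonneg _)
        · rw [map_mul, sq]
          exact mul_le_mul bx bY (v.nonneg _) (abs_nonneg _)
      have k2 : v (y * y) ≤ |M| ^ 2 := by
        rw [map_mul, sq]
        exact mul_le_mul bY bY (v.nonneg _) (abs_nonneg _)
      linarith
    · rw [map_mul]
      refine mul_le_mul_of_nonneg_left ((v.add_le _ _).trans ?_) n2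
      linarith
  have l3 : v 4 * v (cub a b d g x) ≤ C₄ * D ^ 2 + v 2 * (C₅ * D) := by
    have e : (4 : K) * cub a b d g x = 2 * (cub a b d g x + cub a b d g y) +
        -(2 * (cub a b d g y - cub a b d g x)) := by ring
    rw [← map_mul, e]
    refine (v.add_le _ _).trans (add_le_add l1 ?_)
    rw [map_neg_eq_map, map_mul]
    exact mul_le_mul_of_nonneg_left l2 n4
  rw [div_le_iff₀ (by positivity)]
  have l4 : v 4 * δ ≤ v 4 * v (cub a b d g x) := mul_le_mul_of_nonneg_left hfl v4.le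
  have l5 : C₄ * D ^ 2 ≤ C₄ * (2 * |M|) * D := by
    have : C₄ * D ^ 2 = C₄ * D * D := by ring
    rw [this]
    have h9 : C₄ * D * D ≤ C₄ * D * (2 * |M|) :=
      mul_le_mul_of_nonneg_left hDM (mul_nonneg hC₄0 hD0)
    linarith
  nlinarith [l3, l4, l5, hD0]

/-- the number of the abscissae of a twist in a ball is bounded uniformly in the twist, if all
abscissae are in the ball -/
theorem unif (hv : LC v) {a b d g : K} (ha : a ≠ 0) (h2 : (2 : K) ≠ 0) (hs : Sep a b d g)
    (M : ℝ) : ∃ N : ℕ, ∀ κ : K, κ ≠ 0 → (∀ x ∈ SS a b d g κ, v x ≤ M) →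
      ∀ s : Finset K, (∀ x ∈ s, x ∈ SS a b d g κ ∧ cub a b d g x ≠ 0) → s.card ≤ N := by
  obtain ⟨δ, hδ, h⟩ := separ (v := v) ha h2 hs M
  obtain ⟨N, hN⟩ := hv.tb M δ hδ
  exact ⟨N, fun κ hκ hM s hs' => hN s (fun x hx => hM x (hs' x hx).1)
    fun x hx y hy hxy => h κ hκ hM x (hs' x hx).1 y (hs' y hy).1 hxy (hs' x hx).2⟩

end

end Pool.Agent.V7H58.EC
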